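import Pool.Agent.R967.DB.Seq

/-!
Disagreement bounds: choice functions on the subsets of size `i + M` of a large set; how often do two
sets with exactly `i` common elements choose the same element?
-/

set_option autoImplicit false

namespace Pool.Agent.R967.DB

open Finset

variable {v : ℕ}

open Classical in
/-- The set of the values of `s` chooses the value `s l`, and `s` is injective. -/
noncomputable def lam (c : Finset (Fin v) → Fin v) {α : Type} [Fintype α] (s : α → Fin v) (l : α) : ℝ :=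
  if Function.Injective s ∧ c (univ.image s) = s l then 1 else 0

theorem lam_nonneg (c : Finset (Fin v) → Fin v) {α : Type} [Fintype α] (s : α → Fin v) (l : α) :
    0 ≤ lam c s l := by
  unfold lam
  split_ifs <;> norm_num

theorem lam_equiv (c : Finset (Fin v) → Fin v) {α β : Type} [Fintype α] [Fintype β]
    (e : α ≃ β) (s : β → Fin v) (l : α) : lam c (s ∘ e) l = lam c s (e l) := by
  classical
  unfold lam
  have h1 : Function.Injective (s ∘ e) ↔ Function.Injective s := by
    constructor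
    · intro h
      have := h.comp e.symm.injective
      rwa [Function.comp_assoc, Equiv.self_comp_symm, Function.comp_id] at this
    · intro h
      exact h.comp e.injective
  have h2 : univ.image (s ∘ e) = univ.image s := by
    ext p
    simp only [mem_image, mem_univ, true_and, Function.comp_apply]
    constructor
    · rintro ⟨a, ha⟩
      exact ⟨e a, ha⟩
    · rintro ⟨b, hb⟩
      exact ⟨e.symm b, by rw [Equiv.apply_symm_apply]; exact hb⟩
  simp only [h1, h2, Function.comp_apply]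

theorem sum_lam_le (c : Finset (Fin v) → Fin v) {α : Type} [Fintype α] (s : α → Fin v) :
    ∑ l, lam c s l ≤ 1 := by
  classical
  by_cases h : ∃ l0, Function.Injective s ∧ c (univ.image s) = s l0
  · obtain ⟨l0, hs, h0⟩ := h
    rw [sum_eq_single l0]
    · unfold lam
      split_ifs <;> norm_num
    · intro l _ hl
      unfold lam
      rw [if_neg]
      rintro ⟨_, h1⟩
      exact hl (hs (h1.symm.trans h0))
    · intro h1
      exact absurd (mem_univ _) h1
  · rw [sum_eq_zero]
    · norm_num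
    · intro l _
      unfold lam
      rw [if_neg]
      rintro ⟨h1, h2⟩
      exact h ⟨l, h1, h2⟩

/-- `lam` for the tuple `(I, R)`. -/
noncomputable def lm (c : Finset (Fin v) → Fin v) {i m : ℕ} (I : Fin i → Fin v) (R : Fin m → Fin v)
    (l : Fin i ⊕ Fin m) : ℝ := lam c (Sum.elim I R) l

theorem lm_nonneg (c : Finset (Fin v) → Fin v) {i m : ℕ} (I : Fin i → Fin v) (R : Fin m → Fin v)
    (l : Fin i ⊕ Fin m) : 0 ≤ lm c I R l := lam_nonneg _ _ _

theorem sum_lm_le (c : Finset (Fin v) → Fin v) {i m : ℕ} (I : Fin i → Fin v) (R : Fin m → Fin v) :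
    ∑ l, lm c I R (Sum.inl l) + ∑ l, lm c I R (Sum.inr l) ≤ 1 := by
  have h := sum_lam_le c (Sum.elim I R)
  rw [Fintype.sum_sum_type] at h
  exact h

/-- Symmetry of the last coordinates. -/
theorem lm_swap (c : Finset (Fin v) → Fin v) {i m : ℕ} (I : Fin i → Fin v) (R : Fin (m + 1) → Fin v)
    (l : Fin (m + 1)) :
    lm c I (R ∘ Equiv.swap 0 l) (Sum.inr 0) = lm c I R (Sum.inr l) := by
  unfold lm
  have h1 : Sum.elim I (R ∘ Equiv.swap 0 l) =
      Sum.elim I R ∘ (Equiv.sumCongr (Equiv.refl (Fin i)) (Equiv.swap 0 l)) := by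
    funext x
    rcases x with x | x <;> rfl
  rw [h1, lam_equiv, Equiv.sumCongr_apply, Sum.map_inr, Equiv.swap_apply_left]

/-- Exchange of a first coordinate and a last one. -/
theorem lm_exch (c : Finset (Fin v) → Fin v) {i m : ℕ} (I : Fin i → Fin v) (p : Fin v)
    (R : Fin m → Fin v) (l : Fin i) :
    lm c (Function.update I l p) (Fin.cons (I l) R : Fin (m + 1) → Fin v) (Sum.inr 0) =
      lm c I (Fin.cons p R : Fin (m + 1) → Fin v) (Sum.inl l) := by
  unfold lm
  have h1 : Sum.elim (Function.update I l p) (Fin.cons (I l) R : Fin (m + 1) → Fin v) =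
      Sum.elim I (Fin.cons p R : Fin (m + 1) → Fin v) ∘
        (Equiv.swap (Sum.inl l) (Sum.inr 0) : Equiv.Perm (Fin i ⊕ Fin (m + 1))) := by
    funext x
    rcases x with x | x
    · by_cases hx : x = l
      · subst hx
        simp
      · rw [Function.comp_apply, Equiv.swap_apply_of_ne_of_ne (by simpa using hx) (by simp)]
        simp [hx]
    · refine Fin.cases ?_ (fun j => ?_) x
      · simp
      · rw [Function.comp_apply, Equiv.swap_apply_of_ne_of_ne (by simp) (by
          intro h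
          exact absurd (Sum.inr.inj h) (Fin.succ_ne_zero j))]
        simp
  rw [h1, lam_equiv]
  simp

/-- Splitting off the first of the last coordinates. -/
theorem sum_cons {m : ℕ} (g : (Fin (m + 1) → Fin v) → ℝ) :
    ∑ R, g R = ∑ p, ∑ R' : Fin m → Fin v, g (Fin.cons p R') := by
  rw [← Fintype.sum_prod_type']
  exact (Fintype.sum_equiv (Fin.consEquiv (fun _ => Fin v)) _ _ (fun x => rfl)).symm

/-- The conditional probability that the new coordinate is chosen (not normalised). -/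
noncomputable def nw (c : Finset (Fin v) → Fin v) {i : ℕ} (m : ℕ) (I : Fin i → Fin v) (p : Fin v) : ℝ :=
  ∑ R' : Fin m → Fin v, lm c I (Fin.cons p R' : Fin (m + 1) → Fin v) (Sum.inr 0)

/-- The conditional probability that an old coordinate is chosen (not normalised). -/
noncomputable def od (c : Finset (Fin v) → Fin v) {i : ℕ} (M : ℕ) (I : Fin i → Fin v) (l : Fin i) : ℝ :=
  ∑ R : Fin M → Fin v, lm c I R (Sum.inl l)

theorem nw_nonneg (c : Finset (Fin v) → Fin v) {i : ℕ} (m : ℕ) (I : Fin i → Fin v) (p : Fin v) :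
    0 ≤ nw c m I p := sum_nonneg fun _ _ => lm_nonneg _ _ _ _

theorem od_nonneg (c : Finset (Fin v) → Fin v) {i : ℕ} (M : ℕ) (I : Fin i → Fin v) (l : Fin i) :
    0 ≤ od c M I l := sum_nonneg fun _ _ => lm_nonneg _ _ _ _

open Classical in
theorem nw_sum (c : Finset (Fin v) → Fin v) {i : ℕ} (m : ℕ) (I : Fin i → Fin v) (A : Finset (Fin v)) :
    ((m : ℝ) + 1) * ∑ p ∈ A, nw c m I p =
      ∑ R : Fin (m + 1) → Fin v, ∑ l, (if R l ∈ A then lm c I R (Sum.inr l) else 0) := by
  have h1 : ∑ p ∈ A, nw c m I p =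
      ∑ R : Fin (m + 1) → Fin v, (if R 0 ∈ A then lm c I R (Sum.inr 0) else 0) := by
    rw [sum_cons]
    simp only [Fin.cons_zero]
    rw [← sum_filter_add_sum_filter_not univ (fun p => p ∈ A)]
    rw [sum_congr rfl (g := fun p => nw c m I p) (s₁ := univ.filter (fun p => p ∈ A))
      (s₂ := univ.filter (fun p => p ∈ A))]
    · rw [sum_eq_zero (s := univ.filter (fun p => p ∉ A))]
      · rw [add_zero]
        congr 1
        ext p
        simp
      · intro p hp
        rw [mem_filter] at hp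
        exact sum_eq_zero fun R' _ => if_neg hp.2
    · intro p hp
      rw [mem_filter] at hp
      exact sum_congr rfl fun R' _ => if_pos hp.2
  have h2 : ∀ l : Fin (m + 1), ∑ R : Fin (m + 1) → Fin v,
      (if R l ∈ A then lm c I R (Sum.inr l) else 0) =
        ∑ R : Fin (m + 1) → Fin v, (if R 0 ∈ A then lm c I R (Sum.inr 0) else 0) := by
    intro l
    refine Fintype.sum_equiv ((Equiv.swap 0 l).arrowCongr (Equiv.refl _)) _ _ (fun R => ?_)
    have h3 : ((Equiv.swap 0 l).arrowCongr (Equiv.refl (Fin v))) R = R ∘ Equiv.swap 0 l := by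
      funext x
      simp [Equiv.arrowCongr]
    rw [h3, lm_swap]
    simp
  rw [sum_comm, sum_congr rfl (fun l _ => h2 l), sum_const, card_univ, Fintype.card_fin, h1,
    nsmul_eq_mul]
  push_cast
  ring

open Classical in
/-- The capacity inequality. -/
theorem nw_cap (c : Finset (Fin v) → Fin v) {i : ℕ} (m : ℕ) (I : Fin i → Fin v)
    (A : Finset (Fin v)) :
    ((m : ℝ) + 1) * ∑ p ∈ A, nw c m I p ≤ (v : ℝ) ^ (m + 1) - ((v : ℝ) - A.card) ^ (m + 1) := by
  rw [nw_sum]
  have h1 : ∀ R : Fin (m + 1) → Fin v, ∑ l, (if R l ∈ A then lm c I R (Sum.inr l) else 0) ≤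
      if ∀ l, R l ∈ Aᶜ then 0 else 1 := by
    intro R
    split_ifs with h
    · rw [sum_eq_zero]
      intro l _
      rw [if_neg]
      have := h l
      rwa [mem_compl] at this
    · have h2 : ∑ l, (if R l ∈ A then lm c I R (Sum.inr l) else 0) ≤ ∑ l, lm c I R (Sum.inr l) := by
        refine sum_le_sum fun l _ => ?_
        split_ifs
        · exact le_rfl
        · exact lm_nonneg _ _ _ _
      have h3 := sum_lm_le c I R
      have h4 : 0 ≤ ∑ l, lm c I R (Sum.inl l) := sum_nonneg fun _ _ => lm_nonneg _ _ _ _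
      linarith
  refine (sum_le_sum fun R _ => h1 R).trans ?_
  have h2 : ∑ R : Fin (m + 1) → Fin v, (if ∀ l, R l ∈ Aᶜ then (0 : ℝ) else 1) =
      ∑ R : Fin (m + 1) → Fin v, ((1 : ℝ) - if ∀ l, R l ∈ Aᶜ then (1 : ℝ) else 0) := by
    refine sum_congr rfl fun R _ => ?_
    split_ifs <;> norm_num
  rw [h2, sum_sub_distrib, sum_const, card_univ, Fintype.card_fun, Fintype.card_fin, Fintype.card_fin,
    sum_boole]
  have h3 : (univ.filter (fun R : Fin (m + 1) → Fin v => ∀ l, R l ∈ Aᶜ)) =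
      Fintype.piFinset (fun _ => Aᶜ) := by
    ext R
    simp [Fintype.mem_piFinset]
  rw [h3, Fintype.card_piFinset_const, card_compl, Fintype.card_fin]
  have h4 : A.card ≤ v := by
    have := card_le_univ A
    rwa [Fintype.card_fin] at this
  rw [nsmul_eq_mul, mul_one]
  push_cast [Nat.cast_sub h4]
  exact le_rfl

/-- The total. -/
theorem nw_tot (c : Finset (Fin v) → Fin v) {i : ℕ} (m : ℕ) (I : Fin i → Fin v) :
    ((m : ℝ) + 1) * ∑ p, nw c m I p ≤ (v : ℝ) ^ (m + 1) - ∑ l, od c (m + 1) I l := by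
  classical
  have h := nw_sum c m I univ
  rw [h]
  unfold od
  rw [sum_comm (s := (univ : Finset (Fin i)))]
  have h1 : (v : ℝ) ^ (m + 1) = ∑ _R : Fin (m + 1) → Fin v, (1 : ℝ) := by
    rw [sum_const, card_univ, Fintype.card_fun, Fintype.card_fin, Fintype.card_fin, nsmul_eq_mul,
      mul_one]
    push_cast
    rfl
  rw [h1, ← sum_sub_distrib]
  refine sum_le_sum fun R _ => ?_
  simp only [mem_univ, if_true]
  have := sum_lm_le c I R
  linarith

/-- The square of the sum of the old probabilities. -/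
noncomputable def Tau (c : Finset (Fin v) → Fin v) {i : ℕ} (M : ℕ) (I : Fin i → Fin v) : ℝ :=
  (∑ l, od c M I l) / (v : ℝ) ^ M

theorem Tau_nonneg (c : Finset (Fin v) → Fin v) {i : ℕ} (M : ℕ) (I : Fin i → Fin v) :
    0 ≤ Tau c M I := div_nonneg (sum_nonneg fun _ _ => od_nonneg _ _ _ _) (by positivity)

theorem Tau_le (c : Finset (Fin v) → Fin v) {i : ℕ} (M : ℕ) (I : Fin i → Fin v) :
    Tau c M I ≤ 1 := by
  unfold Tau
  refine div_le_one_of_le₀ ?_ (by positivity)
  unfold od
  rw [sum_comm]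
  have h1 : (v : ℝ) ^ M = ∑ _R : Fin M → Fin v, (1 : ℝ) := by
    rw [sum_const, card_univ, Fintype.card_fun, Fintype.card_fin, Fintype.card_fin, nsmul_eq_mul,
      mul_one]
    push_cast
    rfl
  rw [h1]
  refine sum_le_sum fun R _ => ?_
  have := sum_lm_le c I R
  have h4 : 0 ≤ ∑ l, lm c I R (Sum.inr l) := sum_nonneg fun _ _ => lm_nonneg _ _ _ _
  linarith

/-- The bound for the new coordinate. -/
theorem nw_sq (hv : 0 < v) (c : Finset (Fin v) → Fin v) {i : ℕ} (m : ℕ) (I : Fin i → Fin v) :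
    ∑ p, (nw c m I p / (v : ℝ) ^ m) ^ 2 ≤ ((v : ℝ) / ((m + 1 : ℕ) : ℝ)) *
      ((1 - Tau c (m + 1) I ^ 2) / 2 + ((m + 1 : ℕ) : ℝ) / (2 * v) + 1 / ((m + 1 : ℕ) : ℝ)) := by
  have hv' : (0 : ℝ) < v := by exact_mod_cast hv
  refine bath hv (Nat.succ_pos m) _ (fun p => div_nonneg (nw_nonneg _ _ _ _) (by positivity))
    (Tau_nonneg _ _ _) (Tau_le _ _ _) (fun A => ?_) ?_
  · have h := nw_cap c m I A
    rw [← sum_div, div_le_iff₀ (by positivity)]
    have h1 : (1 - (A.card : ℝ) / v) ^ (m + 1) * (v : ℝ) ^ (m + 1) = ((v : ℝ) - A.card) ^ (m + 1) := by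
      rw [← mul_pow]
      congr 1
      field_simp
    have hm : (0 : ℝ) < (m : ℝ) + 1 := by positivity
    have h2 : ((v : ℝ) / ((m + 1 : ℕ) : ℝ)) * (1 - (1 - (A.card : ℝ) / v) ^ (m + 1)) * (v : ℝ) ^ m =
        ((v : ℝ) ^ (m + 1) - ((v : ℝ) - A.card) ^ (m + 1)) / ((m : ℝ) + 1) := by
      rw [← h1]
      push_cast
      field_simp
      ring
    rw [h2, le_div_iff₀ hm]
    linarith
  · have h := nw_tot c m I
    rw [← sum_div, div_le_iff₀ (by positivity)]
    have hm : (0 : ℝ) < (m : ℝ) + 1 := by positivity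
    have h2 : ((v : ℝ) / ((m + 1 : ℕ) : ℝ)) * (1 - Tau c (m + 1) I) * (v : ℝ) ^ m =
        ((v : ℝ) ^ (m + 1) - ∑ l, od c (m + 1) I l) / ((m : ℝ) + 1) := by
      unfold Tau
      push_cast
      field_simp
      ring
    rw [h2, le_div_iff₀ hm]
    linarith

/-- Jensen and the exchange of coordinates. -/
theorem od_sq (hv : 0 < v) (c : Finset (Fin v) → Fin v) {i : ℕ} (m : ℕ) (l : Fin i) :
    ∑ I : Fin i → Fin v, (od c (m + 1) I l / (v : ℝ) ^ (m + 1)) ^ 2 ≤
      (1 / v : ℝ) * ∑ I : Fin i → Fin v, ∑ p, (nw c m I p / (v : ℝ) ^ m) ^ 2 := by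
  have hv' : (0 : ℝ) < v := by exact_mod_cast hv
  set g : (Fin i → Fin v) → Fin v → ℝ := fun I p =>
    ∑ R' : Fin m → Fin v, lm c I (Fin.cons p R' : Fin (m + 1) → Fin v) (Sum.inl l) with hg
  have h1 : ∀ I, od c (m + 1) I l = ∑ p, g I p := by
    intro I
    unfold od
    rw [sum_cons]
  have h2 : ∀ I, (od c (m + 1) I l / (v : ℝ) ^ (m + 1)) ^ 2 ≤
      (1 / v : ℝ) * ∑ p, (g I p / (v : ℝ) ^ m) ^ 2 := by
    intro I
    rw [h1]
    have h3 : (∑ p, g I p) ^ 2 ≤ v * ∑ p, g I p ^ 2 := by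
      have := sq_sum_le_card_mul_sum_sq (s := (univ : Finset (Fin v))) (f := g I)
      rwa [card_univ, Fintype.card_fin] at this
    calc ((∑ p, g I p) / (v : ℝ) ^ (m + 1)) ^ 2 = (∑ p, g I p) ^ 2 / ((v : ℝ) ^ (m + 1)) ^ 2 := by
          rw [div_pow]
      _ ≤ (v * ∑ p, g I p ^ 2) / ((v : ℝ) ^ (m + 1)) ^ 2 := by gcongr
      _ = (1 / v : ℝ) * ∑ p, (g I p / (v : ℝ) ^ m) ^ 2 := by
          simp_rw [div_pow]
          rw [← sum_div, pow_succ]
          field_simp
          ring
  refine (sum_le_sum fun I _ => h2 I).trans ?_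
  rw [← mul_sum]
  refine mul_le_mul_of_nonneg_left (le_of_eq ?_) (by positivity)
  rw [← Fintype.sum_prod_type', ← Fintype.sum_prod_type']
  set ex : (Fin i → Fin v) × Fin v → (Fin i → Fin v) × Fin v :=
    fun x => (Function.update x.1 l x.2, x.1 l) with hex
  have hinv : Function.Involutive ex := by
    rintro ⟨I, p⟩
    simp [hex]
  refine Fintype.sum_equiv hinv.toPerm _ _ (fun x => ?_)
  obtain ⟨I, p⟩ := x
  have h4 : g I p = nw c m (Function.update I l p) (I l) := by
    simp only [hg]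
    unfold nw
    exact sum_congr rfl fun R' _ => (lm_exch c I p R' l).symm
  change (g I p / (v : ℝ) ^ m) ^ 2 = (nw c m (Function.update I l p) (I l) / (v : ℝ) ^ m) ^ 2
  rw [h4]

/-- The mean of the squares of the old probabilities. -/
noncomputable def Zq (c : Finset (Fin v) → Fin v) (i M : ℕ) : ℝ :=
  (∑ I : Fin i → Fin v, ∑ l, (od c M I l / (v : ℝ) ^ M) ^ 2) / (v : ℝ) ^ i

theorem Zq_le (hv : 0 < v) (c : Finset (Fin v) → Fin v) (i m : ℕ) :
    Zq c i (m + 1) ≤ (i / (2 * ((m + 1 : ℕ) : ℝ) + i)) *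
      (1 + ((m + 1 : ℕ) : ℝ) / v + 2 / ((m + 1 : ℕ) : ℝ)) := by
  have hv' : (0 : ℝ) < v := by exact_mod_cast hv
  set M : ℝ := ((m + 1 : ℕ) : ℝ) with hM
  have hM0 : 0 < M := by rw [hM]; positivity
  set Z := Zq c i (m + 1) with hZ
  set B : ℝ := (1 / v : ℝ) * ∑ I : Fin i → Fin v, ∑ p, (nw c m I p / (v : ℝ) ^ m) ^ 2 with hB
  set e : ℝ := M / (2 * v) + 1 / M with he
  have h1 : Z * (v : ℝ) ^ i ≤ i * B := by
    rw [hZ]
    unfold Zq
    rw [div_mul_cancel₀ _ (by positivity), sum_comm]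
    refine (sum_le_sum fun l _ => od_sq hv c m l).trans ?_
    rw [sum_const, card_univ, Fintype.card_fin, nsmul_eq_mul]
  have h2 : ∑ I : Fin i → Fin v, Tau c (m + 1) I ^ 2 ≥ Z * (v : ℝ) ^ i := by
    rw [hZ]
    unfold Zq
    rw [div_mul_cancel₀ _ (by positivity)]
    refine sum_le_sum fun I _ => ?_
    unfold Tau
    have h3 : (∑ l, od c (m + 1) I l) / (v : ℝ) ^ (m + 1) =
        ∑ l, od c (m + 1) I l / (v : ℝ) ^ (m + 1) := sum_div _ _ _
    rw [h3]
    have h4 : ∀ l ∈ (univ : Finset (Fin i)), 0 ≤ od c (m + 1) I l / (v : ℝ) ^ (m + 1) :=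
      fun l _ => div_nonneg (od_nonneg _ _ _ _) (by positivity)
    rw [sq, sum_mul]
    refine sum_le_sum fun l hl => ?_
    rw [sq]
    exact mul_le_mul_of_nonneg_left (single_le_sum h4 hl) (h4 l hl)
  have h3 : B ≤ (1 / M) * (((v : ℝ) ^ i - Z * (v : ℝ) ^ i) / 2 + (v : ℝ) ^ i * e) := by
    rw [hB]
    have h4 : ∑ I : Fin i → Fin v, ∑ p, (nw c m I p / (v : ℝ) ^ m) ^ 2 ≤
        ∑ I : Fin i → Fin v, ((v : ℝ) / M) * ((1 - Tau c (m + 1) I ^ 2) / 2 + M / (2 * v) + 1 / M) :=
      sum_le_sum fun I _ => nw_sq hv c m I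
    have h5 : ∑ I : Fin i → Fin v, ((v : ℝ) / M) * ((1 - Tau c (m + 1) I ^ 2) / 2 + M / (2 * v) + 1 / M) =
        ((v : ℝ) / M) * (((v : ℝ) ^ i - ∑ I : Fin i → Fin v, Tau c (m + 1) I ^ 2) / 2 +
          (v : ℝ) ^ i * e) := by
      rw [← mul_sum]
      congr 1
      simp_rw [add_assoc]
      rw [sum_add_distrib, ← sum_div, sum_sub_distrib, sum_const, sum_const, card_univ,
        Fintype.card_fun, Fintype.card_fin, Fintype.card_fin, nsmul_eq_mul, nsmul_eq_mul]
      push_cast
      ring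
    rw [h5] at h4
    calc (1 / v : ℝ) * ∑ I : Fin i → Fin v, ∑ p, (nw c m I p / (v : ℝ) ^ m) ^ 2
        ≤ (1 / v : ℝ) * (((v : ℝ) / M) * (((v : ℝ) ^ i - ∑ I : Fin i → Fin v, Tau c (m + 1) I ^ 2) / 2 +
          (v : ℝ) ^ i * e)) := mul_le_mul_of_nonneg_left h4 (by positivity)
      _ = (1 / M) * (((v : ℝ) ^ i - ∑ I : Fin i → Fin v, Tau c (m + 1) I ^ 2) / 2 +
          (v : ℝ) ^ i * e) := by field_simp
      _ ≤ _ := by
          refine mul_le_mul_of_nonneg_left ?_ (by positivity)
          linarith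
  have hvi : (0 : ℝ) < (v : ℝ) ^ i := by positivity
  have h6 : Z ≤ i * ((1 / M) * ((1 - Z) / 2 + e)) := by
    have h7 : Z * (v : ℝ) ^ i ≤ (i * ((1 / M) * ((1 - Z) / 2 + e))) * (v : ℝ) ^ i := by
      refine h1.trans ?_
      have h8 : (i : ℝ) * B ≤ i * ((1 / M) * (((v : ℝ) ^ i - Z * (v : ℝ) ^ i) / 2 + (v : ℝ) ^ i * e)) :=
        mul_le_mul_of_nonneg_left h3 (by positivity)
      refine h8.trans (le_of_eq ?_)
      ring
    exact le_of_mul_le_mul_right h7 hvi
  have h9 : Z * (2 * M + i) ≤ i * (1 + M / v + 2 / M) := by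
    have h10 : i * ((1 / M) * ((1 - Z) / 2 + e)) * (2 * M) = i * (1 - Z) + i * (2 * e) := by
      field_simp
    have h11 : Z * (2 * M) ≤ i * ((1 / M) * ((1 - Z) / 2 + e)) * (2 * M) :=
      mul_le_mul_of_nonneg_right h6 (by positivity)
    have h12 : 2 * e = M / v + 2 / M := by
      rw [he]
      field_simp
    rw [h10, h12] at h11
    linarith
  rw [div_mul_eq_mul_div, le_div_iff₀ (by positivity)]
  exact h9

open Classical in
/-- Two sets of size `i + M` with exactly `i` common elements which choose the same element. -/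
theorem core (hv : 0 < v) (c : Finset (Fin v) → Fin v) (i m : ℕ)
    (hc : ∀ S : Finset (Fin v), S.card = i + (m + 1) → c S ∈ S) :
    ∑ I : Fin i → Fin v, ∑ R : Fin (m + 1) → Fin v, ∑ R' : Fin (m + 1) → Fin v,
      (if Function.Injective (Sum.elim I (Sum.elim R R')) ∧
        c (univ.image (Sum.elim I R)) = c (univ.image (Sum.elim I R')) then (1 : ℝ) else 0) ≤
      (v : ℝ) ^ (i + 2 * (m + 1)) * ((i / (2 * ((m + 1 : ℕ) : ℝ) + i)) *
      (1 + ((m + 1 : ℕ) : ℝ) / v + 2 / ((m + 1 : ℕ) : ℝ))) := by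
  have hv' : (0 : ℝ) < v := by exact_mod_cast hv
  have h1 : ∀ I : Fin i → Fin v, ∀ R R' : Fin (m + 1) → Fin v,
      (if Function.Injective (Sum.elim I (Sum.elim R R')) ∧
        c (univ.image (Sum.elim I R)) = c (univ.image (Sum.elim I R')) then (1 : ℝ) else 0) ≤
      ∑ l, lm c I R (Sum.inl l) * lm c I R' (Sum.inl l) := by
    intro I R R'
    split_ifs with h
    · obtain ⟨hinj, heq⟩ := h
      have i1 : Function.Injective (Sum.elim I R) := by
        have := hinj.comp (show Function.Injective (Sum.map id Sum.inl :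
          Fin i ⊕ Fin (m + 1) → Fin i ⊕ (Fin (m + 1) ⊕ Fin (m + 1))) from
            Function.injective_id.sumMap Sum.inl_injective)
        convert this using 1
        funext x
        rcases x with x | x <;> simp
      have i2 : Function.Injective (Sum.elim I R') := by
        have := hinj.comp (show Function.Injective (Sum.map id Sum.inr :
          Fin i ⊕ Fin (m + 1) → Fin i ⊕ (Fin (m + 1) ⊕ Fin (m + 1))) from
            Function.injective_id.sumMap Sum.inr_injective)
        convert this using 1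
        funext x
        rcases x with x | x <;> simp
      have c1 : (univ.image (Sum.elim I R)).card = i + (m + 1) := by
        rw [card_image_of_injective _ i1, card_univ, Fintype.card_sum, Fintype.card_fin,
          Fintype.card_fin]
      have c2 : (univ.image (Sum.elim I R')).card = i + (m + 1) := by
        rw [card_image_of_injective _ i2, card_univ, Fintype.card_sum, Fintype.card_fin,
          Fintype.card_fin]
      have m1 := hc _ c1
      have m2 := hc _ c2
      rw [← heq] at m2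
      rw [mem_image] at m1 m2
      obtain ⟨x, -, hx⟩ := m1
      obtain ⟨y, -, hy⟩ := m2
      have hl : ∃ l : Fin i, x = Sum.inl l ∧ y = Sum.inl l := by
        have hxy : Sum.elim I (Sum.elim R R') (Sum.map id Sum.inl x) =
            Sum.elim I (Sum.elim R R') (Sum.map id Sum.inr y) := by
          have e1 : Sum.elim I (Sum.elim R R') (Sum.map id Sum.inl x) = Sum.elim I R x := by
            rcases x with x | x <;> simp
          have e2 : Sum.elim I (Sum.elim R R') (Sum.map id Sum.inr y) = Sum.elim I R' y := by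
            rcases y with y | y <;> simp
          rw [e1, e2, hx, hy]
        have hxy' := hinj hxy
        rcases x with x | x <;> rcases y with y | y
        · simp only [Sum.map_inl, id_eq, Sum.inl.injEq] at hxy'
          exact ⟨x, rfl, by rw [hxy']⟩
        · simp at hxy'
        · simp at hxy'
        · simp at hxy'
      obtain ⟨l, rfl, rfl⟩ := hl
      have hsing : lm c I R (Sum.inl l) * lm c I R' (Sum.inl l) = 1 := by
        unfold lm lam
        rw [if_pos ⟨i1, hx.symm⟩, if_pos ⟨i2, by rw [← heq]; exact hy.symm⟩, one_mul]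
      rw [← hsing]
      exact single_le_sum (f := fun l => lm c I R (Sum.inl l) * lm c I R' (Sum.inl l))
        (fun l _ => mul_nonneg (lm_nonneg _ _ _ _) (lm_nonneg _ _ _ _)) (mem_univ l)
    · exact sum_nonneg fun l _ => mul_nonneg (lm_nonneg _ _ _ _) (lm_nonneg _ _ _ _)
  have h2 : ∀ I : Fin i → Fin v, ∑ R : Fin (m + 1) → Fin v, ∑ R' : Fin (m + 1) → Fin v,
      ∑ l, lm c I R (Sum.inl l) * lm c I R' (Sum.inl l) = ∑ l, od c (m + 1) I l ^ 2 := by
    intro I
    have e1 : ∀ R : Fin (m + 1) → Fin v, ∑ R' : Fin (m + 1) → Fin v,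
        ∑ l, lm c I R (Sum.inl l) * lm c I R' (Sum.inl l) =
        ∑ l, lm c I R (Sum.inl l) * od c (m + 1) I l := by
      intro R
      rw [sum_comm]
      refine sum_congr rfl fun l _ => ?_
      rw [← mul_sum]
      rfl
    rw [sum_congr rfl (fun R _ => e1 R), sum_comm]
    refine sum_congr rfl fun l _ => ?_
    rw [← sum_mul, sq]
    rfl
  have h3 := Zq_le hv c i m
  have h4 : (v : ℝ) ^ (i + 2 * (m + 1)) * Zq c i (m + 1) =
      ∑ I : Fin i → Fin v, ∑ l, od c (m + 1) I l ^ 2 := by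
    unfold Zq
    simp_rw [div_pow]
    simp_rw [← sum_div]
    rw [pow_add]
    field_simp
    ring
  calc _ ≤ ∑ I : Fin i → Fin v, ∑ R : Fin (m + 1) → Fin v, ∑ R' : Fin (m + 1) → Fin v,
      ∑ l, lm c I R (Sum.inl l) * lm c I R' (Sum.inl l) :=
        sum_le_sum fun I _ => sum_le_sum fun R _ => sum_le_sum fun R' _ => h1 I R R'
    _ = ∑ I : Fin i → Fin v, ∑ l, od c (m + 1) I l ^ 2 := sum_congr rfl fun I _ => h2 I
    _ = (v : ℝ) ^ (i + 2 * (m + 1)) * Zq c i (m + 1) := h4.symm
    _ ≤ _ := mul_le_mul_of_nonneg_left h3 (by positivity)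

end Pool.Agent.R967.DB
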