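import Pool.Agent.R967.DB.Prob

/-!
Disagreement bounds: the coupling (rejection sampling from one sequence of trials).
-/

set_option autoImplicit false

namespace Pool.Agent.R967.DB

open MeasureTheory Filter Topology
open scoped ENNReal

section Seq

variable {E : Type} [MeasurableSpace E] (ν : Measure E) [IsProbabilityMeasure ν]

/-- The first trial outside of `N` is trial `t`, and it is in `S`. -/
def cyl (N S : Set E) (t : ℕ) : Set (ℕ → E) := {ω | (∀ s, s < t → ω s ∈ N) ∧ ω t ∈ S}

theorem cyl_eq (N S : Set E) (t : ℕ) :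
    cyl N S t = Set.pi (↑(Finset.range (t + 1)) : Set ℕ) (fun s => if s < t then N else S) := by
  ext ω
  simp only [cyl, Set.mem_ofPred_eq, Set.mem_pi, Finset.coe_range, Set.mem_Iio]
  constructor
  · rintro ⟨h1, h2⟩ s hs
    by_cases h : s < t
    · rw [if_pos h]
      exact h1 s h
    · have : s = t := by omega
      subst this
      rw [if_neg h]
      exact h2
  · intro h
    refine ⟨fun s hs => ?_, ?_⟩
    · have := h s (by omega)
      rwa [if_pos hs] at this
    · have := h t (by omega)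
      rwa [if_neg (lt_irrefl t)] at this

theorem cyl_meas {N S : Set E} (hN : MeasurableSet N) (hS : MeasurableSet S) (t : ℕ) :
    MeasurableSet (cyl N S t) := by
  rw [cyl_eq]
  refine MeasurableSet.pi (Finset.countable_toSet _) fun s _ => ?_
  split_ifs
  · exact hN
  · exact hS

theorem cyl_prob {N S : Set E} (hN : MeasurableSet N) (hS : MeasurableSet S) (t : ℕ) :
    (Measure.infinitePi (fun _ : ℕ => ν)).real (cyl N S t) = ν.real N ^ t * ν.real S := by
  rw [cyl_eq, Measure.real, Measure.infinitePi_pi _ (fun s _ => by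
    split_ifs
    · exact hN
    · exact hS)]
  rw [Finset.prod_range_succ, if_neg (lt_irrefl t)]
  rw [Finset.prod_congr rfl (g := fun _ => ν N) (fun s hs => by
    rw [Finset.mem_range] at hs
    rw [if_pos hs])]
  rw [Finset.prod_const, Finset.card_range, ENNReal.toReal_mul, ENNReal.toReal_pow]
  rfl

theorem cyl_lower {N S : Set E} (hN : MeasurableSet N) (hS : MeasurableSet S)
    (hd : Disjoint N S) (hN1 : ν.real N < 1) (V : Set (ℕ → E)) (hV : ∀ t, cyl N S t ⊆ V) :
    ν.real S / (1 - ν.real N) ≤ (Measure.infinitePi (fun _ : ℕ => ν)).real V := by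
  set P := Measure.infinitePi (fun _ : ℕ => ν) with hP
  have h1 : ∀ n : ℕ, ν.real S * ((1 - ν.real N ^ n) / (1 - ν.real N)) ≤ P.real V := by
    intro n
    have h2 : P.real (⋃ t ∈ Finset.range n, cyl N S t) = ∑ t ∈ Finset.range n, P.real (cyl N S t) := by
      refine measureReal_biUnion_finset ?_ (fun t _ => cyl_meas hN hS t)
      intro s _ t _ hst
      rw [Function.onFun, Set.disjoint_left]
      rintro ω ⟨h3, h4⟩ ⟨h5, h6⟩
      rcases lt_or_gt_of_ne hst with h | h
      · exact Set.disjoint_left.1 hd (h5 s h) h4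
      · exact Set.disjoint_left.1 hd (h3 t h) h6
    have h3 : P.real (⋃ t ∈ Finset.range n, cyl N S t) ≤ P.real V :=
      measureReal_mono (Set.iUnion₂_subset fun t _ => hV t)
    rw [h2] at h3
    refine le_trans (le_of_eq ?_) h3
    simp_rw [hP, cyl_prob ν hN hS]
    rw [← Finset.sum_mul, geom_sum_eq hN1.ne]
    have : ν.real N - 1 ≠ 0 := by linarith
    have : 1 - ν.real N ≠ 0 := by linarith
    rw [mul_comm]
    congr 1
    rw [div_eq_div_iff (by assumption) (by assumption)]
    ring
  have h4 : Tendsto (fun n : ℕ => ν.real S * ((1 - ν.real N ^ n) / (1 - ν.real N))) atTop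
      (𝓝 (ν.real S * ((1 - 0) / (1 - ν.real N)))) := by
    refine Tendsto.const_mul _ (Tendsto.div_const (Tendsto.const_sub _ ?_) _)
    exact tendsto_pow_atTop_nhds_zero_of_lt_one measureReal_nonneg hN1
  have h5 := le_of_tendsto' h4 h1
  calc ν.real S / (1 - ν.real N) = ν.real S * ((1 - 0) / (1 - ν.real N)) := by ring
    _ ≤ _ := h5

open Classical in
/-- The first trial in `D`. -/
noncomputable def fst (D : Set E) (ω : ℕ → E) : ℕ := if h : ∃ t, ω t ∈ D then Nat.find h else 0

theorem fst_of {D : Set E} {ω : ℕ → E} {t : ℕ} (h1 : ∀ s, s < t → ω s ∉ D) (h2 : ω t ∈ D) :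
    fst D ω = t := by
  classical
  unfold fst
  rw [dif_pos ⟨t, h2⟩]
  rw [Nat.find_eq_iff]
  exact ⟨h2, fun n hn => h1 n hn⟩

theorem fst_meas {D : Set E} (hD : MeasurableSet D) : Measurable (fst D) := by
  classical
  refine measurable_to_countable' fun t => ?_
  have h1 : fst D ⁻¹' {t} = cyl Dᶜ D t ∪ {ω : ℕ → E | (∀ s, ω s ∈ Dᶜ) ∧ t = 0} := by
    ext ω
    simp only [Set.mem_preimage, Set.mem_singleton_iff, Set.mem_union, Set.mem_ofPred_eq]
    constructor
    · intro h
      by_cases hex : ∃ t, ω t ∈ D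
      · left
        unfold fst at h
        rw [dif_pos hex, Nat.find_eq_iff] at h
        exact ⟨fun s hs => h.2 s hs, h.1⟩
      · right
        unfold fst at h
        rw [dif_neg hex] at h
        push Not at hex
        exact ⟨hex, h.symm⟩
    · rintro (h | h)
      · exact fst_of h.1 h.2
      · unfold fst
        rw [dif_neg]
        · exact h.2.symm
        · rintro ⟨s, hs⟩
          exact h.1 s hs
  rw [h1]
  refine (cyl_meas hD.compl hD t).union ?_
  by_cases ht : t = 0
  · simp only [ht, and_true]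
    have : {ω : ℕ → E | ∀ s, ω s ∈ Dᶜ} = ⋂ s, (fun ω : ℕ → E => ω s) ⁻¹' Dᶜ := by
      ext ω
      simp
    rw [this]
    exact MeasurableSet.iInter fun s => measurable_pi_apply s hD.compl
  · simp [ht]

/-- The value of the first trial in `D`. -/
noncomputable def val (g : E → ℝ) (D : Set E) (ω : ℕ → E) : ℝ := g (ω (fst D ω))

theorem val_meas {g : E → ℝ} (hg : Measurable g) {D : Set E} (hD : MeasurableSet D) :
    Measurable (val g D) := by
  intro B hB
  have h1 : val g D ⁻¹' B = ⋃ t : ℕ, (fst D ⁻¹' {t}) ∩ {ω | g (ω t) ∈ B} := by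
    ext ω
    simp [val]
  rw [h1]
  refine MeasurableSet.iUnion fun t => (fst_meas hD (measurableSet_singleton t)).inter ?_
  exact (hg.comp (measurable_pi_apply t)) hB

theorem val_lower {g : E → ℝ} (hg : Measurable g) {D : Set E} (hD : MeasurableSet D)
    (hpos : 0 < ν.real D) (B : Set ℝ) (hB : MeasurableSet B) :
    ν.real (D ∩ g ⁻¹' B) / ν.real D ≤ (Measure.infinitePi (fun _ : ℕ => ν)).real (val g D ⁻¹' B) := by
  have h1 := cyl_lower ν (N := Dᶜ) (S := D ∩ g ⁻¹' B) hD.compl (hD.inter (hg hB))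
    (by
      rw [Set.disjoint_left]
      intro x hx hx'
      exact hx hx'.1) (by
      rw [probReal_compl_eq_one_sub hD]
      linarith) (val g D ⁻¹' B) (by
      rintro t ω ⟨h1, h2⟩
      rw [Set.mem_preimage]
      unfold val
      rw [fst_of h1 h2.1]
      exact h2.2)
  rw [probReal_compl_eq_one_sub hD, sub_sub_cancel] at h1
  exact h1

theorem val_agree {g : E → ℝ} {D D' : Set E} (hD : MeasurableSet D) (hD' : MeasurableSet D')
    (hpos : 0 < ν.real D) :
    ν.real (D ∩ D') / ν.real (D ∪ D') ≤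
      (Measure.infinitePi (fun _ : ℕ => ν)).real {ω | val g D ω = val g D' ω} := by
  have h0 : 0 < ν.real (D ∪ D') := hpos.trans_le (measureReal_mono Set.subset_union_left)
  have h1 := cyl_lower ν (N := (D ∪ D')ᶜ) (S := D ∩ D') (hD.union hD').compl (hD.inter hD')
    (by
      rw [Set.disjoint_left]
      intro x hx hx'
      exact hx (Or.inl hx'.1)) (by
      rw [probReal_compl_eq_one_sub (hD.union hD')]
      linarith) {ω | val g D ω = val g D' ω} (by
      rintro t ω ⟨h1, h2⟩
      rw [Set.mem_ofPred_eq]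
      unfold val
      rw [fst_of (fun s hs h => h1 s hs (Or.inl h)) h2.1, fst_of (fun s hs h => h1 s hs (Or.inr h)) h2.2])
  rw [probReal_compl_eq_one_sub (hD.union hD'), sub_sub_cancel] at h1
  exact h1

end Seq

/-- A law dominated by a finite measure has a density with values in `[0, 1]`. -/
theorem exists_density (μ lam : Measure ℝ) [IsFiniteMeasure μ] [IsFiniteMeasure lam] (h : μ ≤ lam) :
    ∃ p : ℝ → ℝ≥0∞, Measurable p ∧ (∀ z, p z ≤ 1) ∧ ∀ B, MeasurableSet B →
      ∫⁻ z in B, p z ∂lam = μ B := by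
  have hac : μ ≪ lam := Measure.absolutelyContinuous_of_le h
  have h1 : ∀ᵐ z ∂lam, μ.rnDeriv lam z ≤ 1 := by
    refine ae_le_of_forall_setLIntegral_le_of_sigmaFinite (μ.measurable_rnDeriv lam) ?_
    intro s hs _
    rw [Measure.setLIntegral_rnDeriv hac]
    simpa using h s
  refine ⟨fun z => min (μ.rnDeriv lam z) 1, (μ.measurable_rnDeriv lam).min measurable_const,
    fun z => min_le_right _ _, fun B hB => ?_⟩
  rw [← Measure.setLIntegral_rnDeriv hac B]
  refine setLIntegral_congr_fun_ae hB ?_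
  filter_upwards [h1] with z hz _
  exact min_eq_left hz

/-- The uniform law on `[0, 1]`. -/
noncomputable def unif : Measure ℝ := volume.restrict (Set.Ico 0 1)

instance : IsProbabilityMeasure unif := ⟨by simp [unif]⟩

theorem unif_lt {p : ℝ≥0∞} (hp : p ≤ 1) : unif {u | ENNReal.ofReal u < p} = p := by
  have hp' : p ≠ ⊤ := (hp.trans_lt ENNReal.one_lt_top).ne
  obtain ⟨r, rfl⟩ : ∃ r : NNReal, p = r := ⟨p.toNNReal, (ENNReal.coe_toNNReal hp').symm⟩
  have hr : (r : ℝ) ≤ 1 := by
    have : r ≤ 1 := by exact_mod_cast hp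
    exact_mod_cast this
  have h1 : MeasurableSet {u : ℝ | ENNReal.ofReal u < (r : ℝ≥0∞)} :=
    measurableSet_lt ENNReal.measurable_ofReal measurable_const
  unfold unif
  rw [Measure.restrict_apply h1]
  have h2 : {u : ℝ | ENNReal.ofReal u < (r : ℝ≥0∞)} ∩ Set.Ico 0 1 = Set.Ico 0 (r : ℝ) := by
    ext u
    simp only [Set.mem_inter_iff, Set.mem_ofPred_eq, Set.mem_Ico]
    constructor
    · rintro ⟨h3, h4, h5⟩
      refine ⟨h4, ?_⟩
      rw [ENNReal.ofReal_lt_coe_iff h4] at h3
      exact h3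
    · rintro ⟨h3, h4⟩
      refine ⟨?_, h3, by linarith⟩
      rw [ENNReal.ofReal_lt_coe_iff h3]
      exact h4
  rw [h2, Real.volume_Ico, sub_zero, ENNReal.ofReal_coe_nnreal]

theorem tv_ge (μ ν : Measure ℝ) [IsProbabilityMeasure μ] [IsProbabilityMeasure ν] (A : Set ℝ)
    (hA : MeasurableSet A) : |μ.real A - ν.real A| ≤ tv μ ν := by
  unfold tv
  refine le_csSup ⟨1, ?_⟩ ⟨A, hA, rfl⟩
  rintro r ⟨B, hB, rfl⟩
  have h1 : μ.real B ≤ 1 := measureReal_le_one
  have h2 : ν.real B ≤ 1 := measureReal_le_one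
  have h3 : 0 ≤ μ.real B := measureReal_nonneg
  have h4 : 0 ≤ ν.real B := measureReal_nonneg
  rw [abs_le]
  constructor <;> linarith

theorem tv_nonneg (μ ν : Measure ℝ) [IsProbabilityMeasure μ] [IsProbabilityMeasure ν] :
    0 ≤ tv μ ν := (abs_nonneg _).trans (tv_ge μ ν ∅ MeasurableSet.empty)

theorem tv_le_one (μ ν : Measure ℝ) [IsProbabilityMeasure μ] [IsProbabilityMeasure ν] :
    tv μ ν ≤ 1 := by
  unfold tv
  refine csSup_le ⟨_, ∅, MeasurableSet.empty, rfl⟩ ?_
  rintro r ⟨B, hB, rfl⟩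
  have h1 : μ.real B ≤ 1 := measureReal_le_one
  have h2 : ν.real B ≤ 1 := measureReal_le_one
  have h3 : 0 ≤ μ.real B := measureReal_nonneg
  have h4 : 0 ≤ ν.real B := measureReal_nonneg
  rw [abs_le]
  constructor <;> linarith

/-- **The coupling.** -/
theorem coupling (n : ℕ) (μ : Fin n → Measure ℝ) (hμ : ∀ i, IsProbabilityMeasure (μ i)) :
    ∃ (Ω : Type) (_ : MeasurableSpace Ω) (P : Measure Ω) (X : Fin n → Ω → ℝ),
      IsProbabilityMeasure P ∧ (∀ i, Measurable (X i) ∧ P.map (X i) = μ i) ∧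
      ∀ i j, i ≠ j → P.real {ω | X i ω ≠ X j ω} ≤
        2 * tv (μ i) (μ j) / (1 + tv (μ i) (μ j)) := by
  rcases Nat.eq_zero_or_pos n with hn | hn
  · subst hn
    exact ⟨Unit, inferInstance, Measure.dirac (), fun i => i.elim0, inferInstance,
      fun i => i.elim0, fun i => i.elim0⟩
  have hn' : (0 : ℝ) < n := by exact_mod_cast hn
  set lam : Measure ℝ := ∑ i, μ i with hlam
  have hle : ∀ i, μ i ≤ lam := fun i => by
    intro A
    rw [hlam, Measure.finsetSum_apply]
    exact Finset.single_le_sum (f := fun i => μ i A) (fun _ _ => zero_le) (Finset.mem_univ i)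
  have hfin : IsFiniteMeasure lam := by
    rw [hlam]
    infer_instance
  have htot : lam Set.univ = n := by
    rw [hlam, Measure.finsetSum_apply]
    simp
  choose p hpm hp1 hpB using fun i => exists_density (μ i) lam (hle i)
  set κ : Measure ℝ := (n : ℝ≥0∞)⁻¹ • lam with hκ
  have hn0 : (n : ℝ≥0∞) ≠ 0 := by exact_mod_cast hn.ne'
  have hnt : (n : ℝ≥0∞) ≠ ⊤ := ENNReal.natCast_ne_top n
  have hκp : IsProbabilityMeasure κ := ⟨by
    rw [hκ, Measure.smul_apply, htot, smul_eq_mul, ENNReal.inv_mul_cancel hn0 hnt]⟩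
  set ν : Measure (ℝ × ℝ) := κ.prod unif with hν
  have hνp : IsProbabilityMeasure ν := by
    rw [hν]
    infer_instance
  set D : Fin n → Set (ℝ × ℝ) := fun i => {x | ENNReal.ofReal x.2 < p i x.1} with hD
  have hDm : ∀ i, MeasurableSet (D i) := fun i =>
    measurableSet_lt (ENNReal.measurable_ofReal.comp measurable_snd) ((hpm i).comp measurable_fst)
  have hDB : ∀ i, ∀ B : Set ℝ, MeasurableSet B →
      ν.real (D i ∩ Prod.fst ⁻¹' B) = (μ i).real B / n := by
    intro i B hB
    have hm : MeasurableSet (D i ∩ Prod.fst ⁻¹' B) := (hDm i).inter (measurable_fst hB)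
    have h1 : ν (D i ∩ Prod.fst ⁻¹' B) = (n : ℝ≥0∞)⁻¹ * μ i B := by
      rw [hν, Measure.prod_apply hm]
      have h2 : ∀ z : ℝ, unif (Prod.mk z ⁻¹' (D i ∩ Prod.fst ⁻¹' B)) = B.indicator (p i) z := by
        intro z
        by_cases hz : z ∈ B
        · rw [Set.indicator_of_mem hz]
          have h3 : Prod.mk z ⁻¹' (D i ∩ Prod.fst ⁻¹' B) = {u | ENNReal.ofReal u < p i z} := by
            ext u
            simp [hD, hz]
          rw [h3, unif_lt (hp1 i z)]
        · rw [Set.indicator_of_notMem hz]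
          have h3 : Prod.mk z ⁻¹' (D i ∩ Prod.fst ⁻¹' B) = ∅ := by
            ext u
            simp [hz]
          rw [h3, measure_empty]
      simp_rw [h2]
      rw [lintegral_indicator hB, hκ, Measure.restrict_smul, lintegral_smul_measure, hpB i B hB,
        smul_eq_mul]
    rw [Measure.real, h1, ENNReal.toReal_mul, ENNReal.toReal_inv, ENNReal.toReal_natCast]
    rw [Measure.real]
    field_simp
  have hD1 : ∀ i, ν.real (D i) = 1 / n := by
    intro i
    have := hDB i Set.univ MeasurableSet.univ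
    rw [Set.preimage_univ, Set.inter_univ, probReal_univ] at this
    exact this
  have hdiff : ∀ i j, ν.real (D i \ D j) ≤ tv (μ i) (μ j) / n := by
    intro i j
    set A : Set ℝ := {z | p j z < p i z} with hA
    have hAm : MeasurableSet A := measurableSet_lt (hpm j) (hpm i)
    have h1 : D i \ D j ⊆ (D i ∩ Prod.fst ⁻¹' A) \ (D j ∩ Prod.fst ⁻¹' A) := by
      rintro ⟨z, u⟩ ⟨h2, h3⟩
      simp only [hD, Set.mem_ofPred_eq, not_lt] at h2 h3
      refine ⟨⟨h2, ?_⟩, fun h4 => ?_⟩
      · exact h3.trans_lt h2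
      · exact absurd h4.1 (not_lt.2 h3)
    have h2 : D j ∩ Prod.fst ⁻¹' A ⊆ D i ∩ Prod.fst ⁻¹' A := by
      rintro ⟨z, u⟩ ⟨h2, h3⟩
      have h2' : ENNReal.ofReal u < p j z := h2
      have h3' : p j z < p i z := h3
      exact ⟨show ENNReal.ofReal u < p i z from lt_trans h2' h3', h3⟩
    calc ν.real (D i \ D j) ≤ ν.real ((D i ∩ Prod.fst ⁻¹' A) \ (D j ∩ Prod.fst ⁻¹' A)) :=
          measureReal_mono h1
      _ = ν.real (D i ∩ Prod.fst ⁻¹' A) - ν.real (D j ∩ Prod.fst ⁻¹' A) :=
          measureReal_sdiff h2 ((hDm j).inter (measurable_fst hAm))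
      _ = ((μ i).real A - (μ j).real A) / n := by
          rw [hDB i A hAm, hDB j A hAm]
          ring
      _ ≤ tv (μ i) (μ j) / n := by
          have := (le_abs_self _).trans (tv_ge (μ i) (μ j) A hAm)
          gcongr
  have htvs : ∀ i j, tv (μ j) (μ i) = tv (μ i) (μ j) := by
    intro i j
    unfold tv
    congr 1
    ext r
    constructor
    · rintro ⟨A, hA, rfl⟩
      exact ⟨A, hA, abs_sub_comm _ _⟩
    · rintro ⟨A, hA, rfl⟩
      exact ⟨A, hA, abs_sub_comm _ _⟩
  refine ⟨ℕ → ℝ × ℝ, inferInstance, Measure.infinitePi (fun _ => ν),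
    fun i => val Prod.fst (D i), inferInstance, fun i => ⟨val_meas measurable_fst (hDm i), ?_⟩, ?_⟩
  · -- the law
    have hm := val_meas (E := ℝ × ℝ) measurable_fst (hDm i)
    have hle1 : ∀ B, MeasurableSet B → (μ i).real B ≤
        ((Measure.infinitePi (fun _ : ℕ => ν)).map (val Prod.fst (D i))).real B := by
      intro B hB
      have h1 := val_lower ν measurable_fst (hDm i) (by rw [hD1]; positivity) B hB
      rw [hDB i B hB, hD1] at h1
      have h5 : ((Measure.infinitePi (fun _ : ℕ => ν)).map (val Prod.fst (D i))).real B =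
          (Measure.infinitePi (fun _ : ℕ => ν)).real (val Prod.fst (D i) ⁻¹' B) := by
        rw [Measure.real, Measure.map_apply hm hB, Measure.real]
      rw [h5]
      refine le_trans (le_of_eq ?_) h1
      field_simp
    have hpr : IsProbabilityMeasure ((Measure.infinitePi (fun _ : ℕ => ν)).map (val Prod.fst (D i))) :=
      Measure.isProbabilityMeasure_map hm.aemeasurable
    ext B hB
    have h2 := hle1 B hB
    have h3 := hle1 Bᶜ hB.compl
    rw [probReal_compl_eq_one_sub hB, probReal_compl_eq_one_sub hB] at h3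
    have h4 : ((Measure.infinitePi (fun _ : ℕ => ν)).map (val Prod.fst (D i))).real B =
        (μ i).real B := by linarith
    exact (measureReal_eq_measureReal_iff).1 h4
  · intro i j hij
    set d := tv (μ i) (μ j) with hd
    have hd0 : 0 ≤ d := tv_nonneg _ _
    have hd1 : d ≤ 1 := tv_le_one _ _
    have h1 := val_agree ν (g := Prod.fst) (hDm i) (hDm j) (by rw [hD1]; positivity)
    have hm : MeasurableSet {ω : ℕ → ℝ × ℝ | val Prod.fst (D i) ω = val Prod.fst (D j) ω} :=
      measurableSet_eq_fun (val_meas measurable_fst (hDm i)) (val_meas measurable_fst (hDm j))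
    have h2 : {ω : ℕ → ℝ × ℝ | val Prod.fst (D i) ω ≠ val Prod.fst (D j) ω} =
        {ω | val Prod.fst (D i) ω = val Prod.fst (D j) ω}ᶜ := rfl
    rw [h2, probReal_compl_eq_one_sub hm]
    have h3 : ν.real (D i ∩ D j) ≥ (1 - d) / n := by
      have e1 : ν.real (D i \ D j) + ν.real (D i ∩ D j) = ν.real (D i) := by
        rw [add_comm]
        exact measureReal_inter_add_sdiff (hDm j)
      have e2 := hdiff i j
      rw [hD1] at e1
      have e3 : (1 - d) / (n : ℝ) = 1 / n - d / n := by ring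
      rw [e3]
      linarith
    have h4 : ν.real (D i ∪ D j) ≤ (1 + d) / n := by
      have e1 : ν.real (D i ∪ D j) ≤ ν.real (D i) + ν.real (D j \ D i) := by
        rw [← Set.union_sdiff_self]
        exact measureReal_union_le _ _
      have e2 := hdiff j i
      rw [htvs i j] at e2
      rw [hD1] at e1
      have e3 : (1 + d) / (n : ℝ) = 1 / n + d / n := by ring
      rw [e3]
      linarith
    have h5 : 0 < ν.real (D i ∪ D j) := by
      refine lt_of_lt_of_le ?_ (measureReal_mono (Set.subset_union_left (s := D i) (t := D j)))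
      rw [hD1]
      positivity
    have h6 : (1 - d) / (1 + d) ≤ ν.real (D i ∩ D j) / ν.real (D i ∪ D j) := by
      rw [div_le_div_iff₀ (by linarith) h5]
      calc (1 - d) * ν.real (D i ∪ D j) ≤ (1 - d) * ((1 + d) / n) :=
            mul_le_mul_of_nonneg_left h4 (by linarith)
        _ = (1 - d) / n * (1 + d) := by ring
        _ ≤ ν.real (D i ∩ D j) * (1 + d) := mul_le_mul_of_nonneg_right h3 (by linarith)
    have h7 : 2 * d / (1 + d) = 1 - (1 - d) / (1 + d) := by
      field_simp
      ring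
    rw [h7]
    linarith

/-- Characterisation of the disagreement bounds. -/
theorem db_iff (f : ℝ → ℝ) :
    DB f ↔ ∀ x : ℝ, 0 ≤ x → x ≤ 1 → 2 * x / (1 + x) ≤ f x ∧ f x ≤ 1 := by
  constructor
  · intro hf x h0 h1
    exact ⟨main hf h0 h1, (hf.1 x h0 h1).2⟩
  · intro h
    refine ⟨fun x h0 h1 => ⟨?_, (h x h0 h1).2⟩, fun n μ hμ => ?_⟩
    · refine le_trans ?_ (h x h0 h1).1
      positivity
    · obtain ⟨Ω, mΩ, P, X, hP, hX, hd⟩ := coupling n μ hμ
      refine ⟨Ω, mΩ, P, X, hP, hX, fun i j hij => (hd i j hij).trans ?_⟩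
      have := hμ i
      have := hμ j
      exact (h _ (tv_nonneg _ _) (tv_le_one _ _)).1

/-- The pointwise minimum. -/
theorem db_min {f g : ℝ → ℝ} (hf : DB f) (hg : DB g) : DB (fun x => min (f x) (g x)) := by
  rw [db_iff] at hf hg ⊢
  intro x h0 h1
  exact ⟨le_min (hf x h0 h1).1 (hg x h0 h1).1, (min_le_left _ _).trans (hf x h0 h1).2⟩

end Pool.Agent.R967.DB
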