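import Pool.Agent.R967.DB.Core

/-!
Disagreement bounds: the collections of random variables and the conclusion.
-/

set_option autoImplicit false

namespace Pool.Agent.R967.DB

open Finset MeasureTheory Filter Topology

/-- The total variation distance of two laws. -/
noncomputable def tv (μ ν : Measure ℝ) : ℝ :=
  sSup {r : ℝ | ∃ A : Set ℝ, MeasurableSet A ∧ r = |μ.real A - ν.real A|}

/-- `f` is a disagreement bound. -/
def DB (f : ℝ → ℝ) : Prop :=
  (∀ x : ℝ, 0 ≤ x → x ≤ 1 → 0 ≤ f x ∧ f x ≤ 1) ∧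
  ∀ (n : ℕ) (μ : Fin n → Measure ℝ), (∀ i, IsProbabilityMeasure (μ i)) →
    ∃ (Ω : Type) (_ : MeasurableSpace Ω) (P : Measure Ω) (X : Fin n → Ω → ℝ),
      IsProbabilityMeasure P ∧ (∀ i, Measurable (X i) ∧ P.map (X i) = μ i) ∧
      ∀ i j, i ≠ j → P.real {ω | X i ω ≠ X j ω} ≤ f (tv (μ i) (μ j))

variable {v : ℕ}

/-- The reals which represent the elements of `S`. -/
noncomputable def emb (S : Finset (Fin v)) : Finset ℝ := S.image (fun p => (p.val : ℝ))

/-- Uniform on `S` up to an atom at `-1`. -/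
noncomputable def law (a d : ℝ) (S : Finset (Fin v)) : Measure ℝ :=
  ∑ p ∈ S, ENNReal.ofReal a • Measure.dirac (p.val : ℝ) + ENNReal.ofReal d • Measure.dirac (-1)

open Classical in
/-- The number of the elements of `S` in `A`. -/
noncomputable def cnt (S : Finset (Fin v)) (A : Set ℝ) : ℝ :=
  ((S.filter (fun p => ((p.val : ℝ)) ∈ A)).card : ℝ)

theorem cnt_nonneg (S : Finset (Fin v)) (A : Set ℝ) : 0 ≤ cnt S A := by
  unfold cnt
  positivity

theorem cnt_le (S : Finset (Fin v)) (A : Set ℝ) : cnt S A ≤ S.card := by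
  classical
  unfold cnt
  exact_mod_cast card_filter_le _ _

theorem cnt_all (S : Finset (Fin v)) (A : Set ℝ) (h : ∀ p ∈ S, ((p.val : ℝ)) ∈ A) :
    cnt S A = S.card := by
  classical
  unfold cnt
  rw [filter_true_of_mem h]

theorem cnt_none (S : Finset (Fin v)) (A : Set ℝ) (h : ∀ p ∈ S, ¬ ((p.val : ℝ)) ∈ A) :
    cnt S A = 0 := by
  classical
  unfold cnt
  rw [filter_false_of_mem h, card_empty, Nat.cast_zero]

theorem cnt_split (S S' : Finset (Fin v)) (A : Set ℝ) :
    cnt S A = cnt (S \ S') A + cnt (S ∩ S') A := by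
  classical
  unfold cnt
  rw [← Nat.cast_add, ← card_union_of_disjoint]
  · rw [← filter_union, sdiff_union_inter]
  · exact disjoint_filter_filter (disjoint_sdiff_inter S S')

open Classical in
theorem law_apply {a d : ℝ} (ha : 0 ≤ a) (hd : 0 ≤ d) (S : Finset (Fin v)) (A : Set ℝ)
    (hA : MeasurableSet A) :
    law a d S A = ENNReal.ofReal (a * cnt S A + (if (-1 : ℝ) ∈ A then d else 0)) := by
  unfold law
  rw [Measure.add_apply, Measure.finsetSum_apply]
  simp only [Measure.smul_apply, Measure.dirac_apply' _ hA, smul_eq_mul]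
  rw [ENNReal.ofReal_add (mul_nonneg ha (cnt_nonneg _ _)) (by split_ifs <;> linarith)]
  congr 1
  · unfold cnt
    rw [ENNReal.ofReal_mul ha, ENNReal.ofReal_natCast, ← mul_sum]
    congr 1
    rw [card_filter, Nat.cast_sum]
    refine sum_congr rfl fun p _ => ?_
    by_cases h : (p.val : ℝ) ∈ A
    · simp [h]
    · simp [h]
  · by_cases h : (-1 : ℝ) ∈ A
    · simp [h]
    · simp [h]

open Classical in
theorem law_real {a d : ℝ} (ha : 0 ≤ a) (hd : 0 ≤ d) (S : Finset (Fin v)) (A : Set ℝ)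
    (hA : MeasurableSet A) :
    (law a d S).real A = a * cnt S A + (if (-1 : ℝ) ∈ A then d else 0) := by
  rw [Measure.real, law_apply ha hd S A hA, ENNReal.toReal_ofReal]
  have h1 : 0 ≤ (if (-1 : ℝ) ∈ A then d else 0) := by split_ifs <;> linarith
  have h2 := mul_nonneg ha (cnt_nonneg S A)
  linarith

theorem law_prob {a d : ℝ} (ha : 0 ≤ a) (hd : 0 ≤ d) (S : Finset (Fin v))
    (h : a * (S.card : ℝ) + d = 1) : IsProbabilityMeasure (law a d S) := by
  classical
  constructor
  rw [law_apply ha hd S Set.univ MeasurableSet.univ, cnt_all _ _ (fun _ _ => Set.mem_univ _),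
    if_pos (Set.mem_univ _), h, ENNReal.ofReal_one]

theorem law_tv {a d : ℝ} (ha : 0 ≤ a) (hd : 0 ≤ d) (S S' : Finset (Fin v)) (M : ℕ)
    (h1 : (S \ S').card = M) (h2 : (S' \ S).card = M) :
    tv (law a d S) (law a d S') = a * M := by
  classical
  have key : ∀ A : Set ℝ, MeasurableSet A → (law a d S).real A - (law a d S').real A =
      a * (cnt (S \ S') A - cnt (S' \ S) A) := by
    intro A hA
    rw [law_real ha hd _ _ hA, law_real ha hd _ _ hA, cnt_split S S', cnt_split S' S,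
      inter_comm S' S]
    ring
  have key2 : ∀ A : Set ℝ, MeasurableSet A → |(law a d S).real A - (law a d S').real A| ≤ a * M := by
    intro A hA
    rw [key A hA, abs_mul, abs_of_nonneg ha]
    refine mul_le_mul_of_nonneg_left ?_ ha
    have c1 := cnt_le (S \ S') A
    have c2 := cnt_le (S' \ S) A
    rw [h1] at c1
    rw [h2] at c2
    have c3 := cnt_nonneg (S \ S') A
    have c4 := cnt_nonneg (S' \ S) A
    rw [abs_le]
    constructor <;> linarith
  unfold tv
  apply le_antisymm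
  · refine csSup_le ⟨_, ∅, MeasurableSet.empty, rfl⟩ ?_
    rintro r ⟨A, hA, rfl⟩
    exact key2 A hA
  · refine le_csSup ?_ ?_
    · refine ⟨a * M, ?_⟩
      rintro r ⟨A, hA, rfl⟩
      exact key2 A hA
    · refine ⟨↑(emb (S \ S')), (Finset.measurableSet _), ?_⟩
      rw [key _ (Finset.measurableSet _)]
      have e1 : ∀ p ∈ S \ S', ((p.val : ℝ)) ∈ (↑(emb (S \ S')) : Set ℝ) := by
        intro p hp
        rw [mem_coe]
        exact mem_image_of_mem _ hp
      have e2 : ∀ p ∈ S' \ S, ¬ ((p.val : ℝ)) ∈ (↑(emb (S \ S')) : Set ℝ) := by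
        intro p hp
        rw [mem_coe]
        intro hq
        unfold emb at hq
        rw [mem_image] at hq
        obtain ⟨q, hq1, hq2⟩ := hq
        have hqp : q = p := by
          apply Fin.ext
          exact_mod_cast hq2
        subst hqp
        rw [Finset.mem_sdiff] at hp hq1
        exact hq1.2 hp.1
      rw [cnt_all _ _ e1, cnt_none _ _ e2, h1, sub_zero, abs_of_nonneg (by positivity)]

/-- The probability of the atom at `-1`. -/
theorem law_compl {a d : ℝ} (ha : 0 ≤ a) (hd : 0 ≤ d) (S : Finset (Fin v)) :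
    (law a d S).real ((↑(emb S) : Set ℝ)ᶜ) = d := by
  classical
  rw [law_real ha hd _ _ (Finset.measurableSet _).compl]
  have e1 : ∀ p ∈ S, ¬ ((p.val : ℝ)) ∈ (↑(emb S) : Set ℝ)ᶜ := by
    intro p hp
    rw [Set.mem_compl_iff, not_not, mem_coe]
    exact mem_image_of_mem _ hp
  rw [cnt_none _ _ e1, mul_zero, zero_add, if_pos]
  rw [Set.mem_compl_iff, mem_coe]
  intro h
  unfold emb at h
  rw [mem_image] at h
  obtain ⟨p, _, hp⟩ := h
  have : (0 : ℝ) ≤ (p.val : ℝ) := by positivity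
  linarith

/-- The triples of tuples which are injective. -/
noncomputable def trip (v i M : ℕ) :
    Finset ((Fin i → Fin v) × (Fin M → Fin v) × (Fin M → Fin v)) := by
  classical
  exact univ.filter (fun u => Function.Injective (Sum.elim u.1 (Sum.elim u.2.1 u.2.2)))

/-- The two sets of a triple. -/
noncomputable def S1 {i M : ℕ} (u : (Fin i → Fin v) × (Fin M → Fin v) × (Fin M → Fin v)) :
    Finset (Fin v) := univ.image (Sum.elim u.1 u.2.1)

/-- The two sets of a triple. -/
noncomputable def S2 {i M : ℕ} (u : (Fin i → Fin v) × (Fin M → Fin v) × (Fin M → Fin v)) :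
    Finset (Fin v) := univ.image (Sum.elim u.1 u.2.2)

theorem trip_facts {i M : ℕ} {u : (Fin i → Fin v) × (Fin M → Fin v) × (Fin M → Fin v)}
    (hu : u ∈ trip v i M) : (S1 u).card = i + M ∧ (S2 u).card = i + M ∧
      (S1 u \ S2 u).card = M ∧ (S2 u \ S1 u).card = M := by
  classical
  obtain ⟨I, R, R'⟩ := u
  unfold trip at hu
  rw [mem_filter] at hu
  have hinj : Function.Injective (Sum.elim I (Sum.elim R R')) := hu.2
  have i1 : Function.Injective (Sum.elim I R) := by
    have := hinj.comp (show Function.Injective (Sum.map id Sum.inl :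
      Fin i ⊕ Fin M → Fin i ⊕ (Fin M ⊕ Fin M)) from
        Function.injective_id.sumMap Sum.inl_injective)
    convert this using 1
    funext x
    rcases x with x | x <;> simp
  have i2 : Function.Injective (Sum.elim I R') := by
    have := hinj.comp (show Function.Injective (Sum.map id Sum.inr :
      Fin i ⊕ Fin M → Fin i ⊕ (Fin M ⊕ Fin M)) from
        Function.injective_id.sumMap Sum.inr_injective)
    convert this using 1
    funext x
    rcases x with x | x <;> simp
  have iR : Function.Injective R := by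
    have := i1.comp Sum.inr_injective
    simpa using this
  have iR' : Function.Injective R' := by
    have := i2.comp Sum.inr_injective
    simpa using this
  have c1 : (S1 (I, R, R')).card = i + M := by
    unfold S1
    rw [card_image_of_injective _ i1, card_univ, Fintype.card_sum, Fintype.card_fin,
      Fintype.card_fin]
  have c2 : (S2 (I, R, R')).card = i + M := by
    unfold S2
    rw [card_image_of_injective _ i2, card_univ, Fintype.card_sum, Fintype.card_fin,
      Fintype.card_fin]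
  have d1 : S1 (I, R, R') \ S2 (I, R, R') = univ.image R := by
    unfold S1 S2
    ext p
    simp only [Finset.mem_sdiff, mem_image, mem_univ, true_and]
    constructor
    · rintro ⟨⟨x, hx⟩, h⟩
      rcases x with x | x
      · exact absurd ⟨Sum.inl x, by simpa using hx⟩ h
      · exact ⟨x, by simpa using hx⟩
    · rintro ⟨x, hx⟩
      refine ⟨⟨Sum.inr x, by simpa using hx⟩, ?_⟩
      rintro ⟨y, hy⟩
      rcases y with y | y
      · have : Sum.elim I (Sum.elim R R') (Sum.inl y) =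
            Sum.elim I (Sum.elim R R') (Sum.inr (Sum.inl x)) := by
          simp only [Sum.elim_inl, Sum.elim_inr] at hy ⊢
          rw [hy, hx]
        exact absurd (hinj this) (by simp)
      · have : Sum.elim I (Sum.elim R R') (Sum.inr (Sum.inr y)) =
            Sum.elim I (Sum.elim R R') (Sum.inr (Sum.inl x)) := by
          simp only [Sum.elim_inl, Sum.elim_inr] at hy ⊢
          rw [hy, hx]
        exact absurd (hinj this) (by simp)
  have d2 : S2 (I, R, R') \ S1 (I, R, R') = univ.image R' := by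
    unfold S1 S2
    ext p
    simp only [Finset.mem_sdiff, mem_image, mem_univ, true_and]
    constructor
    · rintro ⟨⟨x, hx⟩, h⟩
      rcases x with x | x
      · exact absurd ⟨Sum.inl x, by simpa using hx⟩ h
      · exact ⟨x, by simpa using hx⟩
    · rintro ⟨x, hx⟩
      refine ⟨⟨Sum.inr x, by simpa using hx⟩, ?_⟩
      rintro ⟨y, hy⟩
      rcases y with y | y
      · have : Sum.elim I (Sum.elim R R') (Sum.inl y) =
            Sum.elim I (Sum.elim R R') (Sum.inr (Sum.inr x)) := by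
          simp only [Sum.elim_inl, Sum.elim_inr] at hy ⊢
          rw [hy, hx]
        exact absurd (hinj this) (by simp)
      · have : Sum.elim I (Sum.elim R R') (Sum.inr (Sum.inl y)) =
            Sum.elim I (Sum.elim R R') (Sum.inr (Sum.inr x)) := by
          simp only [Sum.elim_inl, Sum.elim_inr] at hy ⊢
          rw [hy, hx]
        exact absurd (hinj this) (by simp)
  refine ⟨c1, c2, ?_, ?_⟩
  · rw [d1, card_image_of_injective _ iR, card_univ, Fintype.card_fin]
  · rw [d2, card_image_of_injective _ iR', card_univ, Fintype.card_fin]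

/-- There are many injective triples. -/
theorem trip_card (hv : 0 < v) (i M : ℕ) (hn : i + (M + M) ≤ v) :
    (v : ℝ) ^ (i + 2 * M) * (1 - ((i + (M + M) : ℕ) : ℝ) ^ 2 / v) ≤ ((trip v i M).card : ℝ) := by
  classical
  set n := i + (M + M) with hn'
  have hv' : (0 : ℝ) < v := by exact_mod_cast hv
  have h1 : (trip v i M).card = v.descFactorial n := by
    have h2 : (trip v i M).card = Fintype.card (Fin i ⊕ (Fin M ⊕ Fin M) ↪ Fin v) := by
      unfold trip
      rw [← Fintype.card_subtype]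
      refine Fintype.card_congr ?_
      refine (Equiv.subtypeEquiv (q := fun s : Fin i ⊕ (Fin M ⊕ Fin M) → Fin v =>
        Function.Injective s)
        ((Equiv.prodCongr (Equiv.refl _) (Equiv.sumArrowEquivProdArrow (Fin M) (Fin M) (Fin v)).symm).trans
          (Equiv.sumArrowEquivProdArrow (Fin i) (Fin M ⊕ Fin M) (Fin v)).symm) ?_).trans
        (Equiv.subtypeInjectiveEquivEmbedding _ _)
      rintro ⟨I, R, R'⟩
      rfl
    rw [h2, Fintype.card_embedding_eq]
    simp [hn']
  rw [h1]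
  have h3 : (v + 1 - n) ^ n ≤ v.descFactorial n := Nat.pow_sub_le_descFactorial v n
  have h4 : ((v : ℝ) - n) ^ n ≤ ((v + 1 - n : ℕ) : ℝ) ^ n := by
    have h5 : (0 : ℝ) ≤ (v : ℝ) - n := by
      have : (n : ℝ) ≤ v := by exact_mod_cast hn
      linarith
    refine pow_le_pow_left₀ h5 ?_ n
    rw [Nat.cast_sub (by omega)]
    push_cast
    linarith
  have h6 : (1 : ℝ) + n * (-(n / v)) ≤ (1 + (-(n / v : ℝ))) ^ n := by
    refine one_add_mul_le_pow ?_ n
    have : (n : ℝ) / v ≤ 1 := by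
      rw [div_le_one hv']
      exact_mod_cast hn
    linarith
  have h7 : i + 2 * M = n := by omega
  rw [h7]
  calc (v : ℝ) ^ n * (1 - (n : ℝ) ^ 2 / v) = (v : ℝ) ^ n * (1 + n * (-(n / v))) := by ring
    _ ≤ (v : ℝ) ^ n * (1 + (-(n / v : ℝ))) ^ n := by gcongr
    _ = ((v : ℝ) - n) ^ n := by
        rw [← mul_pow]
        congr 1
        field_simp
        ring
    _ ≤ ((v + 1 - n : ℕ) : ℝ) ^ n := h4
    _ ≤ ((v.descFactorial n : ℕ) : ℝ) := by exact_mod_cast h3

/-- The choice function of one realisation. -/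
noncomputable def ch (hv : 0 < v) (Y : Finset (Fin v) → ℝ) (S : Finset (Fin v)) : Fin v := by
  classical
  exact if h : ∃ p ∈ S, Y S = (p.val : ℝ) then h.choose
    else if h' : S.Nonempty then h'.choose else ⟨0, hv⟩

theorem ch_mem (hv : 0 < v) (Y : Finset (Fin v) → ℝ) (S : Finset (Fin v)) (hS : S.Nonempty) :
    ch hv Y S ∈ S := by
  classical
  unfold ch
  split_ifs with h
  · exact h.choose_spec.1
  · exact hS.choose_spec

theorem ch_eq (hv : 0 < v) (Y : Finset (Fin v) → ℝ) (S : Finset (Fin v)) (h : Y S ∈ emb S) :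
    Y S = ((ch hv Y S).val : ℝ) := by
  classical
  have h1 : ∃ p ∈ S, Y S = (p.val : ℝ) := by
    unfold emb at h
    rw [mem_image] at h
    obtain ⟨p, hp, hp'⟩ := h
    exact ⟨p, hp, hp'.symm⟩
  unfold ch
  rw [dif_pos h1]
  exact h1.choose_spec.2

/-- The main inequality for one collection. -/
theorem step {f : ℝ → ℝ} (hf : DB f) {x : ℝ} (hx0 : 0 < x) (i m : ℕ)
    (hk : ((i : ℝ) + ((m + 1 : ℕ) : ℝ)) * x ≤ ((m + 1 : ℕ) : ℝ)) (hv : 0 < v) :
    ((trip v i (m + 1)).card : ℝ) *
      (1 - f x - 2 * (1 - ((i : ℝ) + ((m + 1 : ℕ) : ℝ)) * x / ((m + 1 : ℕ) : ℝ))) ≤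
      (v : ℝ) ^ (i + 2 * (m + 1)) * ((i / (2 * ((m + 1 : ℕ) : ℝ) + i)) *
      (1 + ((m + 1 : ℕ) : ℝ) / v + 2 / ((m + 1 : ℕ) : ℝ))) := by
  classical
  set M : ℝ := ((m + 1 : ℕ) : ℝ) with hM
  have hM0 : 0 < M := by rw [hM]; positivity
  set a : ℝ := x / M with ha
  set d : ℝ := 1 - ((i : ℝ) + M) * x / M with hd
  have ha0 : 0 ≤ a := by positivity
  have hd0 : 0 ≤ d := by
    rw [hd, sub_nonneg, div_le_one hM0]
    exact hk
  set e := Fintype.equivFin (Finset (Fin v)) with he
  set nu : Finset (Fin v) → Measure ℝ := fun S =>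
    if S.card = i + (m + 1) then law a d S else Measure.dirac (-1) with hnu
  have hprob : ∀ S, IsProbabilityMeasure (nu S) := by
    intro S
    simp only [hnu]
    split_ifs with h
    · refine law_prob ha0 hd0 S ?_
      rw [h, ha, hd]
      push_cast
      rw [show ((m : ℝ) + 1) = M by rw [hM]; push_cast; ring]
      field_simp
      ring
    · infer_instance
  obtain ⟨Ω, _, P, X, hP, hX, hdis⟩ := hf.2 _ (fun j => nu (e.symm j)) (fun j => hprob _)
  set Y : Finset (Fin v) → Ω → ℝ := fun S => X (e S) with hY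
  have hYm : ∀ S, Measurable (Y S) := fun S => (hX (e S)).1
  have hYl : ∀ S, P.map (Y S) = nu S := fun S => by
    have := (hX (e S)).2
    simpa using this
  -- one triple
  have h1 : ∀ u ∈ trip v i (m + 1), 1 - f x ≤ P.real {ω | Y (S1 u) ω = Y (S2 u) ω} := by
    intro u hu
    obtain ⟨c1, c2, d1, d2⟩ := trip_facts hu
    have hne : e (S1 u) ≠ e (S2 u) := by
      intro h
      rw [e.injective h, sdiff_self, bot_eq_empty, card_empty] at d1
      omega
    have h2 := hdis _ _ hne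
    simp only [Equiv.symm_apply_apply, hnu, if_pos c1, if_pos c2] at h2
    rw [law_tv ha0 hd0 _ _ _ d1 d2] at h2
    have h3 : a * ((m + 1 : ℕ) : ℝ) = x := by
      rw [ha, ← hM]
      field_simp
    rw [h3] at h2
    have h4 : {ω | X (e (S1 u)) ω ≠ X (e (S2 u)) ω} = {ω | Y (S1 u) ω = Y (S2 u) ω}ᶜ := by
      ext ω
      simp [hY]
    have h5 : MeasurableSet {ω | Y (S1 u) ω = Y (S2 u) ω} :=
      measurableSet_eq_fun (hYm _) (hYm _)
    rw [h4, probReal_compl_eq_one_sub h5] at h2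
    linarith
  have h6 : ∀ S : Finset (Fin v), S.card = i + (m + 1) →
      P.real {ω | Y S ω ∉ emb S} = d := by
    intro S hS
    have h7 : {ω | Y S ω ∉ emb S} = Y S ⁻¹' ((↑(emb S) : Set ℝ)ᶜ) := by
      ext ω
      simp
    rw [h7, Measure.real, ← Measure.map_apply (hYm S) (Finset.measurableSet _).compl, hYl S]
    simp only [hnu, if_pos hS]
    exact law_compl ha0 hd0 S
  -- one realisation
  set K : ℝ := (v : ℝ) ^ (i + 2 * (m + 1)) * ((i / (2 * M + i)) * (1 + M / v + 2 / M)) with hK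
  have h8 : ∀ ω : Ω, ∑ u ∈ trip v i (m + 1),
      (Set.indicator {ω | Y (S1 u) ω = Y (S2 u) ω} (fun _ => (1 : ℝ)) ω -
        Set.indicator {ω | Y (S1 u) ω ∉ emb (S1 u)} (fun _ => (1 : ℝ)) ω -
        Set.indicator {ω | Y (S2 u) ω ∉ emb (S2 u)} (fun _ => (1 : ℝ)) ω) ≤ K := by
    intro ω
    set Z : Finset (Fin v) → ℝ := fun S => Y S ω with hZ
    have h9 := core hv (ch hv Z) i m (fun S hS => ch_mem hv Z S (by
      rw [← card_pos]
      omega))
    refine le_trans ?_ h9
    have h10 : ∑ I : Fin i → Fin v, ∑ R : Fin (m + 1) → Fin v, ∑ R' : Fin (m + 1) → Fin v,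
      (if Function.Injective (Sum.elim I (Sum.elim R R')) ∧
        ch hv Z (univ.image (Sum.elim I R)) = ch hv Z (univ.image (Sum.elim I R')) then (1 : ℝ) else 0) =
        ∑ u ∈ trip v i (m + 1), (if ch hv Z (S1 u) = ch hv Z (S2 u) then (1 : ℝ) else 0) := by
      unfold trip
      rw [sum_filter, Fintype.sum_prod_type]
      refine sum_congr rfl fun I _ => ?_
      rw [Fintype.sum_prod_type]
      refine sum_congr rfl fun R _ => sum_congr rfl fun R' _ => ?_
      by_cases g1 : Function.Injective (Sum.elim I (Sum.elim R R'))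
      · by_cases g2 : ch hv Z (univ.image (Sum.elim I R)) = ch hv Z (univ.image (Sum.elim I R'))
        · rw [if_pos ⟨g1, g2⟩, if_pos g1, if_pos]
          exact g2
        · rw [if_neg (fun h => g2 h.2), if_pos g1, if_neg]
          exact g2
      · rw [if_neg (fun h => g1 h.1), if_neg g1]
    rw [h10]
    refine sum_le_sum fun u hu => ?_
    have b1 : ∀ T : Set Ω, (0 : ℝ) ≤ Set.indicator T (fun _ => (1 : ℝ)) ω := fun T =>
      Set.indicator_nonneg (fun _ _ => zero_le_one) ω
    have b2 : ∀ T : Set Ω, Set.indicator T (fun _ => (1 : ℝ)) ω ≤ 1 := fun T =>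
      Set.indicator_le_self' (fun _ _ => zero_le_one) ω
    by_cases q1 : Y (S1 u) ω ∈ emb (S1 u)
    · by_cases q2 : Y (S2 u) ω ∈ emb (S2 u)
      · by_cases q3 : Y (S1 u) ω = Y (S2 u) ω
        · have e1 := ch_eq hv Z (S1 u) q1
          have e2 := ch_eq hv Z (S2 u) q2
          have e3 : ch hv Z (S1 u) = ch hv Z (S2 u) := by
            apply Fin.ext
            have : ((ch hv Z (S1 u)).val : ℝ) = ((ch hv Z (S2 u)).val : ℝ) := by
              rw [← e1, ← e2]
              exact q3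
            exact_mod_cast this
          rw [if_pos e3]
          linarith [b2 {ω | Y (S1 u) ω = Y (S2 u) ω}, b1 {ω | Y (S1 u) ω ∉ emb (S1 u)},
            b1 {ω | Y (S2 u) ω ∉ emb (S2 u)}]
        · have e4 : Set.indicator {ω | Y (S1 u) ω = Y (S2 u) ω} (fun _ => (1 : ℝ)) ω = 0 :=
            Set.indicator_of_notMem (s := {ω | Y (S1 u) ω = Y (S2 u) ω}) q3 _
          have e5 : (0 : ℝ) ≤ (if ch hv Z (S1 u) = ch hv Z (S2 u) then (1 : ℝ) else 0) := by
            split_ifs <;> norm_num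
          rw [e4]
          linarith [b1 {ω | Y (S1 u) ω ∉ emb (S1 u)}, b1 {ω | Y (S2 u) ω ∉ emb (S2 u)}]
      · have e4 : Set.indicator {ω | Y (S2 u) ω ∉ emb (S2 u)} (fun _ => (1 : ℝ)) ω = 1 :=
          Set.indicator_of_mem q2 _
        have e5 : (0 : ℝ) ≤ (if ch hv Z (S1 u) = ch hv Z (S2 u) then (1 : ℝ) else 0) := by
          split_ifs <;> norm_num
        rw [e4]
        linarith [b1 {ω | Y (S1 u) ω ∉ emb (S1 u)}, b2 {ω | Y (S1 u) ω = Y (S2 u) ω}]
    · have e4 : Set.indicator {ω | Y (S1 u) ω ∉ emb (S1 u)} (fun _ => (1 : ℝ)) ω = 1 :=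
        Set.indicator_of_mem q1 _
      have e5 : (0 : ℝ) ≤ (if ch hv Z (S1 u) = ch hv Z (S2 u) then (1 : ℝ) else 0) := by
        split_ifs <;> norm_num
      rw [e4]
      linarith [b1 {ω | Y (S2 u) ω ∉ emb (S2 u)}, b2 {ω | Y (S1 u) ω = Y (S2 u) ω}]
  have m1 : ∀ u, MeasurableSet {ω | Y (S1 (i := i) (M := m + 1) u) ω = Y (S2 u) ω} := fun u =>
    measurableSet_eq_fun (hYm _) (hYm _)
  have m2 : ∀ S, MeasurableSet {ω | Y S ω ∉ emb S} := fun S => by
    have h7 : {ω | Y S ω ∉ emb S} = Y S ⁻¹' ((↑(emb S) : Set ℝ)ᶜ) := by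
      ext ω
      simp
    rw [h7]
    exact hYm S (Finset.measurableSet _).compl
  have hint : ∀ T : Set Ω, MeasurableSet T →
      Integrable (Set.indicator T (fun _ => (1 : ℝ))) P := fun T hT =>
    (integrable_const 1).indicator hT
  set F : ((Fin i → Fin v) × (Fin (m + 1) → Fin v) × (Fin (m + 1) → Fin v)) → Ω → ℝ := fun u ω =>
      (Set.indicator {ω | Y (S1 u) ω = Y (S2 u) ω} (fun _ => (1 : ℝ)) ω -
        Set.indicator {ω | Y (S1 u) ω ∉ emb (S1 u)} (fun _ => (1 : ℝ)) ω -
        Set.indicator {ω | Y (S2 u) ω ∉ emb (S2 u)} (fun _ => (1 : ℝ)) ω) with hF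
  have hFi : ∀ u, Integrable (F u) P := fun u =>
    ((hint _ (m1 u)).sub (hint _ (m2 _))).sub (hint _ (m2 _))
  have h11 : ∫ ω, ∑ u ∈ trip v i (m + 1), F u ω ∂P ≤ K := by
    have h12 : Integrable (fun ω => ∑ u ∈ trip v i (m + 1), F u ω) P :=
      integrable_finsetSum _ fun u _ => hFi u
    calc _ ≤ ∫ _ : Ω, K ∂P := integral_mono h12 (integrable_const K) h8
      _ = K := by simp
  rw [integral_finsetSum _ (fun u _ => hFi u)] at h11
  have h13 : ∀ u ∈ trip v i (m + 1), (1 - f x - 2 * d) ≤ ∫ ω, F u ω ∂P := by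
    intro u hu
    obtain ⟨c1, c2, d1, d2⟩ := trip_facts hu
    have e0 : (fun ω => F u ω) =
      (Set.indicator {ω | Y (S1 u) ω = Y (S2 u) ω} (fun _ => (1 : ℝ)) -
        Set.indicator {ω | Y (S1 u) ω ∉ emb (S1 u)} (fun _ => (1 : ℝ)) -
        Set.indicator {ω | Y (S2 u) ω ∉ emb (S2 u)} (fun _ => (1 : ℝ))) := rfl
    rw [e0, integral_sub' ((hint _ (m1 u)).sub (hint _ (m2 _))) (hint _ (m2 _)),
      integral_sub' (hint _ (m1 u)) (hint _ (m2 _))]
    have g : ∀ T : Set Ω, MeasurableSet T → ∫ ω, Set.indicator T (fun _ => (1 : ℝ)) ω ∂P = P.real T := by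
      intro T hT
      rw [integral_indicator_const _ hT]
      simp
    rw [g _ (m1 u), g _ (m2 _), g _ (m2 _), h6 _ c1, h6 _ c2]
    linarith [h1 u hu]
  calc ((trip v i (m + 1)).card : ℝ) * (1 - f x - 2 * d) =
        ∑ _u ∈ trip v i (m + 1), (1 - f x - 2 * d) := by rw [sum_const, nsmul_eq_mul]
    _ ≤ _ := sum_le_sum h13
    _ ≤ K := h11

/-- The limit of large sets. -/
theorem step2 {f : ℝ → ℝ} (hf : DB f) {x : ℝ} (hx0 : 0 < x) (i m : ℕ)
    (hk : ((i : ℝ) + ((m + 1 : ℕ) : ℝ)) * x ≤ ((m + 1 : ℕ) : ℝ)) :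
    1 - f x - 2 * (1 - ((i : ℝ) + ((m + 1 : ℕ) : ℝ)) * x / ((m + 1 : ℕ) : ℝ)) ≤
      (i / (2 * ((m + 1 : ℕ) : ℝ) + i)) * (1 + 2 / ((m + 1 : ℕ) : ℝ)) := by
  set M : ℝ := ((m + 1 : ℕ) : ℝ) with hM
  have hM0 : 0 < M := by rw [hM]; positivity
  set w : ℝ := 1 - f x - 2 * (1 - ((i : ℝ) + M) * x / M) with hw
  rcases lt_or_ge w 0 with hneg | hpos
  · have : 0 ≤ (i / (2 * M + i)) * (1 + 2 / M) := by positivity
    linarith
  set n : ℕ := i + ((m + 1) + (m + 1)) with hn
  have h1 : ∀ᶠ v : ℕ in atTop, w * (1 - (n : ℝ) ^ 2 / v) ≤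
      (i / (2 * M + i)) * (1 + M / v + 2 / M) := by
    filter_upwards [eventually_ge_atTop (n + 1)] with v hv
    have hv0 : 0 < v := by omega
    have hv' : (0 : ℝ) < v := by exact_mod_cast hv0
    have h2 := step hf hx0 i m hk hv0
    have h3 := trip_card hv0 i (m + 1) (by omega)
    have h4 : (v : ℝ) ^ (i + 2 * (m + 1)) * (1 - (n : ℝ) ^ 2 / v) * w ≤
        ((trip v i (m + 1)).card : ℝ) * w := mul_le_mul_of_nonneg_right h3 hpos
    have h5 := h4.trans h2
    have h6 : (0 : ℝ) < (v : ℝ) ^ (i + 2 * (m + 1)) := by positivity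
    have h7 : (v : ℝ) ^ (i + 2 * (m + 1)) * (w * (1 - (n : ℝ) ^ 2 / v)) ≤
        (v : ℝ) ^ (i + 2 * (m + 1)) * ((i / (2 * M + i)) * (1 + M / v + 2 / M)) := by
      calc _ = (v : ℝ) ^ (i + 2 * (m + 1)) * (1 - (n : ℝ) ^ 2 / v) * w := by ring
        _ ≤ _ := h5
    exact le_of_mul_le_mul_left h7 h6
  have t1 : Tendsto (fun v : ℕ => w * (1 - (n : ℝ) ^ 2 / v)) atTop (𝓝 (w * (1 - 0))) :=
    ((tendsto_const_div_atTop_nhds_zero_nat _).const_sub 1).const_mul w
  have t2 : Tendsto (fun v : ℕ => (i / (2 * M + i)) * (1 + M / v + 2 / M)) atTop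
      (𝓝 ((i / (2 * M + i)) * (1 + 0 + 2 / M))) :=
    ((((tendsto_const_div_atTop_nhds_zero_nat _).const_add 1).add_const _)).const_mul _
  have h8 := le_of_tendsto_of_tendsto t1 t2 h1
  simpa using h8

/-- **Every disagreement bound is at least `2x/(1+x)`.** -/
theorem main {f : ℝ → ℝ} (hf : DB f) {x : ℝ} (hx0 : 0 ≤ x) (hx1 : x ≤ 1) :
    2 * x / (1 + x) ≤ f x := by
  rcases hx0.eq_or_lt with h | hpos
  · rw [← h]
    simpa using (hf.1 0 le_rfl zero_le_one).1
  have h1 : ∀ m : ℕ, 1 - f x ≤ (1 - x) / (1 + x) * (1 + 2 / ((m : ℝ) + 1)) + 2 / ((m : ℝ) + 1) := by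
    intro m
    set M : ℝ := ((m + 1 : ℕ) : ℝ) with hM
    have hM' : (m : ℝ) + 1 = M := by rw [hM]; push_cast; ring
    rw [hM']
    have hM0 : 0 < M := by rw [hM]; positivity
    set k : ℕ := ⌊M / x⌋₊ with hk
    have hk1 : (k : ℝ) ≤ M / x := Nat.floor_le (by positivity)
    have hk2 : M / x < k + 1 := Nat.lt_floor_add_one _
    have hk3 : m + 1 ≤ k := by
      refine Nat.le_floor ?_
      rw [le_div_iff₀ hpos]
      nlinarith
    obtain ⟨i, hi⟩ := Nat.exists_eq_add_of_le' hk3
    have hi' : (k : ℝ) = i + M := by rw [hi, hM]; push_cast; ring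
    rw [hi', le_div_iff₀ hpos] at hk1
    rw [hi', div_lt_iff₀ hpos] at hk2
    have h2 := step2 hf hpos i m hk1
    rw [← hM] at h2
    have h3 : (i : ℝ) / (2 * M + i) ≤ (1 - x) / (1 + x) := by
      rw [div_le_div_iff₀ (by positivity) (by linarith)]
      nlinarith
    have h4 : 1 - ((i : ℝ) + M) * x / M ≤ 1 / M := by
      rw [sub_le_iff_le_add, ← add_div, le_div_iff₀ hM0]
      nlinarith
    have h5 : (i / (2 * M + i)) * (1 + 2 / M) ≤ (1 - x) / (1 + x) * (1 + 2 / M) :=
      mul_le_mul_of_nonneg_right h3 (by positivity)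
    have h6 : 2 * (1 / M) = 2 / M := by ring
    linarith
  have t1 : Tendsto (fun m : ℕ => (1 - x) / (1 + x) * (1 + 2 / ((m : ℝ) + 1)) + 2 / ((m : ℝ) + 1))
      atTop (𝓝 ((1 - x) / (1 + x) * (1 + 0) + 0)) := by
    have t2 : Tendsto (fun m : ℕ => 2 / ((m : ℝ) + 1)) atTop (𝓝 0) := by
      have := tendsto_const_div_atTop_nhds_zero_nat (2 : ℝ)
      have t3 := this.comp (tendsto_add_atTop_nat 1)
      refine t3.congr fun m => ?_
      simp
    exact ((t2.const_add 1).const_mul _).add t2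
  have h7 := ge_of_tendsto' t1 h1
  have h8 : 2 * x / (1 + x) = 1 - (1 - x) / (1 + x) := by
    field_simp
    ring
  rw [h8]
  linarith

end Pool.Agent.R967.DB
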