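import Mathlib

/-!
Disagreement bounds: the rearrangement inequality.
-/

set_option autoImplicit false

namespace Pool.Agent.R967.DB

open Finset

/-- Comparison of weighted sums through partial sums. -/
theorem abel_le (n : ℕ) (t x y : ℕ → ℝ) (ht : Antitone t) (ht0 : ∀ r, 0 ≤ t r)
    (h : ∀ a ≤ n, ∑ r ∈ range a, x r ≤ ∑ r ∈ range a, y r) :
    ∑ r ∈ range n, t r * x r ≤ ∑ r ∈ range n, t r * y r := by
  have key : ∀ a ≤ n, t (a - 1) * (∑ r ∈ range a, (y r - x r)) ≤
      ∑ r ∈ range a, t r * (y r - x r) := by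
    intro a
    induction a with
    | zero => intro _; simp
    | succ a ih =>
      intro ha
      have h1 := ih (by omega)
      rw [sum_range_succ, sum_range_succ]
      have h2 : 0 ≤ ∑ r ∈ range a, (y r - x r) := by
        rw [sum_sub_distrib]
        linarith [h a (by omega)]
      have h3 : t a ≤ t (a - 1) := ht (by omega)
      have h4 : t a * ∑ r ∈ range a, (y r - x r) ≤ t (a - 1) * ∑ r ∈ range a, (y r - x r) :=
        mul_le_mul_of_nonneg_right h3 h2
      simp only [Nat.add_sub_cancel]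
      nlinarith
  have h1 := key n le_rfl
  have h2 : 0 ≤ ∑ r ∈ range n, (y r - x r) := by
    rw [sum_sub_distrib]
    linarith [h n le_rfl]
  have h3 : 0 ≤ t (n - 1) * ∑ r ∈ range n, (y r - x r) := mul_nonneg (ht0 _) h2
  have h4 : ∑ r ∈ range n, t r * (y r - x r) =
      ∑ r ∈ range n, t r * y r - ∑ r ∈ range n, t r * x r := by
    rw [← sum_sub_distrib]
    exact sum_congr rfl fun r _ => by ring
  linarith

/-- `y ^ (m-1) (1 - y) ≤ 1/m`. -/
theorem pow_gap {m : ℕ} (hm : 0 < m) {y : ℝ} (h0 : 0 ≤ y) (h1 : y ≤ 1) :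
    y ^ (m - 1) ≤ y ^ m + 1 / m := by
  have h2 : (m : ℝ) * (y ^ (m - 1) * (1 - y)) ≤ 1 := by
    have h3 : ∑ l ∈ range m, y ^ (m - 1) * (1 - y) ≤ ∑ l ∈ range m, y ^ l * (1 - y) := by
      refine sum_le_sum fun l hl => ?_
      rw [mem_range] at hl
      exact mul_le_mul_of_nonneg_right (pow_le_pow_of_le_one h0 h1 (by omega)) (by linarith)
    rw [sum_const, card_range, nsmul_eq_mul, ← sum_mul, geom_sum_mul_neg] at h3
    have := pow_nonneg h0 m
    linarith
  have hm' : (0 : ℝ) < m := by exact_mod_cast hm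
  have h3 : y ^ (m - 1) * (1 - y) ≤ 1 / m := by
    rw [le_div_iff₀ hm']
    linarith
  have h4 : y ^ m = y ^ (m - 1) * y := by
    rw [← pow_succ]
    congr 1
    omega
  rw [h4]
  linarith

/-- The difference of two powers. -/
theorem pow_diff {m : ℕ} {y z : ℝ} (h0 : 0 ≤ z) (hz : z ≤ y) :
    y ^ m - z ^ m ≤ m * (y - z) * y ^ (m - 1) := by
  have h1 : (∑ i ∈ range m, y ^ i * z ^ (m - 1 - i)) * (y - z) = y ^ m - z ^ m :=
    (Commute.all y z).geom_sum₂_mul m
  rw [← h1]
  have h2 : ∑ i ∈ range m, y ^ i * z ^ (m - 1 - i) ≤ ∑ i ∈ range m, y ^ (m - 1) := by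
    refine sum_le_sum fun i hi => ?_
    rw [mem_range] at hi
    calc y ^ i * z ^ (m - 1 - i) ≤ y ^ i * y ^ (m - 1 - i) := by
          refine mul_le_mul_of_nonneg_left (pow_le_pow_left₀ h0 hz _) (pow_nonneg (h0.trans hz) _)
      _ = y ^ (m - 1) := by
          rw [← pow_add]
          congr 1
          omega
  rw [sum_const, card_range, nsmul_eq_mul] at h2
  have h3 : 0 ≤ y - z := by linarith
  nlinarith [mul_le_mul_of_nonneg_right h2 h3]

/-- The bound for sorted sequences. -/
theorem sorted_bound {v m : ℕ} (hv : 0 < v) (hm : 0 < m) (t : ℕ → ℝ) (ht : Antitone t)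
    (ht0 : ∀ r, 0 ≤ t r) {τ : ℝ} (hτ0 : 0 ≤ τ) (hτ1 : τ ≤ 1)
    (hcap : ∀ a ≤ v, ∑ r ∈ range a, t r ≤ (v / m : ℝ) * (1 - (1 - a / v : ℝ) ^ m))
    (htot : ∀ a ≤ v, ∑ r ∈ range a, t r ≤ (v / m : ℝ) * (1 - τ)) :
    ∑ r ∈ range v, t r ^ 2 ≤ (v / m : ℝ) * ((1 - τ ^ 2) / 2 + m / (2 * v) + 1 / m) := by
  have hv' : (0 : ℝ) < v := by exact_mod_cast hv
  have hm' : (0 : ℝ) < m := by exact_mod_cast hm
  set q : ℕ → ℝ := fun r => (1 - r / v : ℝ) ^ m with hq
  have hy : ∀ r : ℕ, r ≤ v → (0 : ℝ) ≤ 1 - r / v ∧ (1 - r / v : ℝ) ≤ 1 := by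
    intro r hr
    have h1 : (r : ℝ) / v ≤ 1 := by
      rw [div_le_one hv']
      exact_mod_cast hr
    have h2 : (0 : ℝ) ≤ (r : ℝ) / v := by positivity
    exact ⟨by linarith, by linarith⟩
  have hdq : ∀ r : ℕ, r < v → (v / m : ℝ) * (q r - q (r + 1)) ≤ (1 - r / v : ℝ) ^ (m - 1) ∧
      q r - q (r + 1) ≤ m / v ∧ 0 ≤ q r - q (r + 1) := by
    intro r hr
    have h1 := hy r (by omega)
    have h2 := hy (r + 1) (by omega)
    have h3 : (1 - ((r + 1 : ℕ) : ℝ) / v) ≤ 1 - r / v := by
      push_cast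
      have : (r : ℝ) / v ≤ (r + 1) / v := by gcongr; linarith
      linarith
    have h4 := pow_diff (m := m) h2.1 h3
    have h5 : (1 - (r : ℝ) / v) - (1 - ((r + 1 : ℕ) : ℝ) / v) = 1 / v := by
      push_cast
      field_simp
      ring
    rw [h5] at h4
    have h6 : q r - q (r + 1) ≤ m * (1 / v) * (1 - r / v : ℝ) ^ (m - 1) := h4
    refine ⟨?_, ?_, ?_⟩
    · calc (v / m : ℝ) * (q r - q (r + 1)) ≤ (v / m : ℝ) * (m * (1 / v) * (1 - r / v : ℝ) ^ (m - 1)) := by
            gcongr
        _ = (1 - r / v : ℝ) ^ (m - 1) := by field_simp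
    · have h7 : (1 - r / v : ℝ) ^ (m - 1) ≤ 1 := pow_le_one₀ h1.1 h1.2
      calc q r - q (r + 1) ≤ m * (1 / v) * (1 - r / v : ℝ) ^ (m - 1) := h6
        _ ≤ m * (1 / v) * 1 := by gcongr
        _ = m / v := by ring
    · have : q (r + 1) ≤ q r := pow_le_pow_left₀ h2.1 h3 m
      linarith
  have hq0 : q 0 = 1 := by simp [hq]
  have hqv : q v = 0 := by
    simp only [hq]
    rw [div_self hv'.ne', sub_self, zero_pow hm.ne']
  have hqn : ∀ r ≤ v, 0 ≤ q r := fun r hr => pow_nonneg (hy r hr).1 m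
  have hq1 : ∀ r ≤ v, q r ≤ 1 := fun r hr => pow_le_one₀ (hy r hr).1 (hy r hr).2
  -- step 1
  have s1 : ∑ r ∈ range v, t r * t r ≤ ∑ r ∈ range v, t r * ((v / m : ℝ) * (q r - q (r + 1))) := by
    refine abel_le v t t _ ht ht0 fun a ha => ?_
    rw [← mul_sum, sum_range_sub', hq0]
    exact hcap a ha
  have s2 : ∑ r ∈ range v, t r * ((v / m : ℝ) * (q r - q (r + 1))) ≤
      ∑ r ∈ range v, q r * t r + 1 / m * ∑ r ∈ range v, t r := by
    rw [mul_sum, ← sum_add_distrib]
    refine sum_le_sum fun r hr => ?_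
    rw [mem_range] at hr
    have h1 := (hdq r hr).1
    have h2 := pow_gap hm (hy r hr.le).1 (hy r hr.le).2
    have h3 : (v / m : ℝ) * (q r - q (r + 1)) ≤ q r + 1 / m := h1.trans h2
    calc t r * ((v / m : ℝ) * (q r - q (r + 1))) ≤ t r * (q r + 1 / m) :=
          mul_le_mul_of_nonneg_left h3 (ht0 r)
      _ = q r * t r + 1 / m * t r := by ring
  -- step 3
  set z : ℕ → ℝ := fun r => max (q r) τ with hz
  have hz0 : z 0 = 1 := by simp only [hz, hq0]; exact max_eq_left hτ1
  have hzv : z v = τ := by simp only [hz, hqv]; exact max_eq_right hτ0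
  have hqa : ∀ r, r < v → q (r + 1) ≤ q r := fun r hr => by linarith [(hdq r hr).2.2]
  have hzd : ∀ r, r < v → 0 ≤ z r - z (r + 1) ∧ z r - z (r + 1) ≤ m / v := by
    intro r hr
    have h1 := hdq r hr
    have h2 : z (r + 1) ≤ z r := max_le_max_right τ (hqa r hr)
    refine ⟨by linarith, ?_⟩
    simp only [hz]
    rcases le_total (q r) τ with h | h
    · rw [max_eq_right h, max_eq_right ((hqa r hr).trans h)]
      simp only [sub_self]
      positivity
    · rw [max_eq_left h]
      linarith [le_max_left (q (r + 1)) τ]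
  -- extend `q` beyond `v` by zero
  have s3 : ∑ r ∈ range v, q r * t r ≤
      ∑ r ∈ range v, q r * ((v / m : ℝ) * (z r - z (r + 1))) := by
    have h := abel_le v (fun r => if r ≤ v then q r else 0) t
      (fun r => (v / m : ℝ) * (z r - z (r + 1))) ?_ ?_ ?_
    · have e : ∀ g : ℕ → ℝ, ∑ r ∈ range v, (if r ≤ v then q r else 0) * g r =
          ∑ r ∈ range v, q r * g r := by
        intro g
        refine sum_congr rfl fun r hr => ?_
        rw [mem_range] at hr
        rw [if_pos hr.le]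
      rw [e, e] at h
      exact h
    · refine antitone_nat_of_succ_le fun r => ?_
      by_cases h : r + 1 ≤ v
      · simp only [h, if_true, show r ≤ v by omega]
        exact hqa r (by omega)
      · simp only [h, if_false]
        split_ifs with h'
        · exact hqn r h'
        · exact le_rfl
    · intro r
      by_cases h' : r ≤ v
      · simp only [h', if_true]
        exact hqn r h'
      · simp only [h', if_false]
        exact le_rfl
    · intro a ha
      rw [← mul_sum, sum_range_sub', hz0]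
      have h1 := hcap a ha
      have h2 := htot a ha
      simp only [hz]
      rcases le_total (q a) τ with h | h
      · rw [max_eq_right h]; exact h2
      · rw [max_eq_left h]; exact h1
  have s4 : ∑ r ∈ range v, q r * ((v / m : ℝ) * (z r - z (r + 1))) ≤
      (v / m : ℝ) * ((1 - τ ^ 2) / 2 + m / (2 * v)) := by
    have h1 : ∀ r ∈ range v, q r * ((v / m : ℝ) * (z r - z (r + 1))) ≤
        (v / m : ℝ) * ((z r ^ 2 - z (r + 1) ^ 2) / 2 + m / (2 * v) * (z r - z (r + 1))) := by
      intro r hr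
      rw [mem_range] at hr
      have h2 := hzd r hr
      have h3 : q r ≤ z r := le_max_left _ _
      have h4 : q r * (z r - z (r + 1)) ≤ (z r ^ 2 - z (r + 1) ^ 2) / 2 +
          m / (2 * v) * (z r - z (r + 1)) := by
        have h5 : q r * (z r - z (r + 1)) ≤ z r * (z r - z (r + 1)) :=
          mul_le_mul_of_nonneg_right h3 h2.1
        have h6 : (z r - z (r + 1)) * (z r - z (r + 1)) ≤ m / v * (z r - z (r + 1)) :=
          mul_le_mul_of_nonneg_right h2.2 h2.1
        have h7 : (m : ℝ) / (2 * v) = m / v / 2 := by field_simp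
        rw [h7]
        nlinarith
      calc q r * ((v / m : ℝ) * (z r - z (r + 1))) = (v / m : ℝ) * (q r * (z r - z (r + 1))) := by ring
        _ ≤ _ := mul_le_mul_of_nonneg_left h4 (by positivity)
    refine (sum_le_sum h1).trans ?_
    rw [← mul_sum, sum_add_distrib, ← mul_sum, ← sum_div, sum_range_sub', sum_range_sub', hz0, hzv]
    have h8 : (m : ℝ) / (2 * v) * (1 - τ) ≤ m / (2 * v) := by
      have : (0 : ℝ) ≤ (m : ℝ) / (2 * v) := by positivity
      nlinarith
    have h9 : (0 : ℝ) ≤ v / m := by positivity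
    refine mul_le_mul_of_nonneg_left ?_ h9
    rw [one_pow]
    linarith
  have s5 : 1 / (m : ℝ) * ∑ r ∈ range v, t r ≤ (v / m : ℝ) * (1 / m) := by
    have h1 := htot v le_rfl
    have h2 : (v / m : ℝ) * (1 - τ) ≤ v / m := by
      have : (0 : ℝ) ≤ (v : ℝ) / m := by positivity
      nlinarith
    calc 1 / (m : ℝ) * ∑ r ∈ range v, t r ≤ 1 / (m : ℝ) * (v / m) := by
          refine mul_le_mul_of_nonneg_left (h1.trans h2) (by positivity)
      _ = (v / m : ℝ) * (1 / m) := by ring
  calc ∑ r ∈ range v, t r ^ 2 = ∑ r ∈ range v, t r * t r := sum_congr rfl fun r _ => sq _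
    _ ≤ ∑ r ∈ range v, q r * t r + 1 / m * ∑ r ∈ range v, t r := s1.trans s2
    _ ≤ (v / m : ℝ) * ((1 - τ ^ 2) / 2 + m / (2 * v)) + (v / m : ℝ) * (1 / m) :=
        add_le_add (s3.trans s4) s5
    _ = _ := by ring

/-- The bound for functions on `Fin v`. -/
theorem bath {v m : ℕ} (hv : 0 < v) (hm : 0 < m) (θ : Fin v → ℝ) (h0 : ∀ p, 0 ≤ θ p)
    {τ : ℝ} (hτ0 : 0 ≤ τ) (hτ1 : τ ≤ 1)
    (hcap : ∀ A : Finset (Fin v), ∑ p ∈ A, θ p ≤ (v / m : ℝ) * (1 - (1 - A.card / v : ℝ) ^ m))
    (htot : ∑ p, θ p ≤ (v / m : ℝ) * (1 - τ)) :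
    ∑ p, θ p ^ 2 ≤ (v / m : ℝ) * ((1 - τ ^ 2) / 2 + m / (2 * v) + 1 / m) := by
  classical
  set σ := Tuple.sort (fun p => -θ p) with hσ
  have hmono : Monotone ((fun p => -θ p) ∘ σ) := Tuple.monotone_sort _
  have hanti : ∀ a b : Fin v, a ≤ b → θ (σ b) ≤ θ (σ a) := by
    intro a b hab
    have := hmono hab
    simp only [Function.comp_apply] at this
    linarith
  set t : ℕ → ℝ := fun r => if h : r < v then θ (σ ⟨r, h⟩) else 0 with ht
  have hT : ∀ a ≤ v, ∀ g : ℝ → ℝ, ∑ r ∈ range a, g (t r) =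
      ∑ p ∈ (univ.filter (fun b : Fin v => b.val < a)).image σ, g (θ p) := by
    intro a ha g
    rw [sum_image (fun x _ y _ h => σ.injective h)]
    refine sum_bij' (fun r hr => if h : r < v then (⟨r, h⟩ : Fin v) else ⟨0, hv⟩)
      (fun b _ => b.val) ?_ ?_ ?_ ?_ ?_
    · intro r hr
      rw [mem_range] at hr
      have h1 : r < v := by omega
      simp [h1, hr]
    · intro b hb
      simpa using hb
    · intro r hr
      rw [mem_range] at hr
      have h1 : r < v := by omega
      simp [h1]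
    · intro b hb
      simp
    · intro r hr
      rw [mem_range] at hr
      have h1 : r < v := by omega
      simp [ht, h1]
  have hcard : ∀ a ≤ v, ((univ.filter (fun b : Fin v => b.val < a)).image σ).card = a := by
    intro a ha
    rw [card_image_of_injective _ σ.injective]
    have h := hT a ha (fun _ => 1)
    rw [sum_const, sum_const, card_range, card_image_of_injective _ σ.injective] at h
    simp only [nsmul_eq_mul, mul_one] at h
    exact_mod_cast h.symm
  have huniv : (univ.filter (fun b : Fin v => b.val < v)).image σ = univ := by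
    refine eq_univ_of_card _ ?_
    rw [hcard v le_rfl, Fintype.card_fin]
  have h1 := sorted_bound hv hm t (τ := τ) ?_ ?_ hτ0 hτ1 ?_ ?_
  · have h2 := hT v le_rfl (fun y => y ^ 2)
    rw [huniv] at h2
    rw [← h2]
    exact h1
  · refine antitone_nat_of_succ_le fun r => ?_
    simp only [ht]
    by_cases h : r + 1 < v
    · rw [dif_pos h, dif_pos (by omega : r < v)]
      exact hanti _ _ (by simp [Fin.le_def])
    · rw [dif_neg h]
      split_ifs
      · exact h0 _
      · exact le_rfl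
  · intro r
    simp only [ht]
    split_ifs
    · exact h0 _
    · exact le_rfl
  · intro a ha
    have h2 := hT a ha (fun y => y)
    rw [h2]
    have h3 := hcap ((univ.filter (fun b : Fin v => b.val < a)).image σ)
    rw [hcard a ha] at h3
    exact h3
  · intro a ha
    have h2 := hT a ha (fun y => y)
    rw [h2]
    refine le_trans ?_ htot
    exact sum_le_sum_of_subset_of_nonneg (subset_univ _) (fun p _ _ => h0 p)

end Pool.Agent.R967.DB
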